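import Pool.Agent.Lib.MP_10b896_lc.Fourier

/-! The relative spectral gap obstruction: an extension of the torus action has no
injective homomorphism into a modular action. -/

open Set MeasureTheory Topology Filter UnitAddTorus Matrix
open scoped ENNReal MatrixGroups symmDiff

namespace Pool.Agent.Lib.MP_10b896_lc

noncomputable section

section approx

variable {Y : Type*} [MeasurableSpace Y] [StandardBorelSpace Y] (ν : Measure Y)
  [IsFiniteMeasure ν] {C : Type*} [Countable C]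

theorem approx_set (q : ℕ → Y → C) (hq : ∀ j c, MeasurableSet (q j ⁻¹' {c}))
    (hsep : ∀ y y', (∀ j, q j y = q j y') → y = y') {B : Set Y} (hB : MeasurableSet B)
    {ε : ℝ≥0∞} (hε : 0 < ε) :
    ∃ B' : Set Y, MeasurableSet B' ∧
      (∃ n, ∀ y y', (∀ j < n, q j y = q j y') → (y ∈ B' ↔ y' ∈ B')) ∧ ν (B' ∆ B) < ε := by
  let 𝒜 : Set (Set Y) := {B' | MeasurableSet B' ∧
      ∃ n, ∀ y y', (∀ j < n, q j y = q j y') → (y ∈ B' ↔ y' ∈ B')}
  have hring : IsSetRing 𝒜 := by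
    refine ⟨⟨MeasurableSet.empty, 0, by simp⟩, ?_, ?_⟩
    · rintro s t ⟨hs, n, hn⟩ ⟨ht, m, hm⟩
      refine ⟨hs.union ht, max n m, fun y y' h => ?_⟩
      simp only [mem_union]
      rw [hn y y' fun j hj => h j (lt_of_lt_of_le hj (le_max_left _ _)),
        hm y y' fun j hj => h j (lt_of_lt_of_le hj (le_max_right _ _))]
    · rintro s t ⟨hs, n, hn⟩ ⟨ht, m, hm⟩
      refine ⟨hs.diff ht, max n m, fun y y' h => ?_⟩
      simp only [mem_diff]
      rw [hn y y' fun j hj => h j (lt_of_lt_of_le hj (le_max_left _ _)),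
        hm y y' fun j hj => h j (lt_of_lt_of_le hj (le_max_right _ _))]
  have hgen : (inferInstance : MeasurableSpace Y) = MeasurableSpace.generateFrom 𝒜 := by
    refine le_antisymm ?_ (MeasurableSpace.generateFrom_le fun s hs => hs.1)
    let : MeasurableSpace C := ⊤
    have : DiscreteMeasurableSpace C := ⟨fun _ => trivial⟩
    let Q : Y → ℕ → C := fun y j => q j y
    have hQ : Measurable Q := measurable_pi_lambda _ fun j => measurable_to_countable' (hq j)
    have hQi : Function.Injective Q := fun y y' h => hsep y y' fun j => congrFun h j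
    have hemb := hQ.measurableEmbedding hQi
    rw [← hemb.comap_eq]
    refine @Measurable.comap_le Y _ (MeasurableSpace.generateFrom 𝒜) _ Q ?_
    refine @measurable_pi_lambda Y ℕ (fun _ => C) (MeasurableSpace.generateFrom 𝒜) _ Q
      fun j => ?_
    refine @measurable_to_countable' C Y _ _ (MeasurableSpace.generateFrom 𝒜) _ fun c => ?_
    refine MeasurableSpace.measurableSet_generateFrom ⟨hq j c, j + 1, fun y y' h => ?_⟩
    simp only [Q, mem_preimage, h j (Nat.lt_succ_self j)]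
  obtain ⟨t, ht, hlt⟩ := exists_measure_symmDiff_lt_of_generateFrom_isSetRing (μ := ν) hring
    ⟨{univ}, countable_singleton _, by
      rintro _ rfl
      exact ⟨MeasurableSet.univ, 0, by simp⟩, by simp⟩ hgen hB hε
  exact ⟨t, ht.1, ht.2, hlt⟩

theorem approx_fun (q : ℕ → Y → C) (hq : ∀ j c, MeasurableSet (q j ⁻¹' {c}))
    (hsep : ∀ y y', (∀ j, q j y = q j y') → y = y') {D : Type*} [Countable D] (α : Y → D)
    (hα : ∀ d, MeasurableSet (α ⁻¹' {d})) {ε : ℝ≥0∞} (hε : 0 < ε) :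
    ∃ Bad : Set Y, MeasurableSet Bad ∧ ν Bad ≤ ε + ε ∧
      ∃ n, ∀ y ∉ Bad, ∀ y' ∉ Bad, (∀ j < n, q j y = q j y') → α y = α y' := by
  obtain ⟨e, he⟩ := exists_injective_nat D
  have hB : ∀ i : ℕ, MeasurableSet ((e ∘ α) ⁻¹' {i}) := by
    intro i
    have : (e ∘ α) ⁻¹' {i} = ⋃ d ∈ e ⁻¹' {i}, α ⁻¹' {d} := by
      ext y; simp
    rw [this]
    exact MeasurableSet.biUnion (to_countable _) fun d _ => hα d
  have hm : Measurable (e ∘ α) := measurable_to_countable' hB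
  obtain ⟨δ, hδ0, hδs⟩ := ENNReal.exists_pos_sum_of_countable hε.ne' ℕ
  have h1 := fun i : ℕ => approx_set ν q hq hsep (hB i) (ε := δ i) (by exact_mod_cast hδ0 i)
  choose B' hB'm hB'n hB'ν using h1
  choose n hn using hB'n
  have htend : Tendsto (fun J : ℕ => ν ((e ∘ α) ⁻¹' Ici J)) atTop (𝓝 (ν (⋂ J : ℕ,
      (e ∘ α) ⁻¹' Ici J))) :=
    tendsto_measure_iInter_atTop (fun J => (hm measurableSet_Ici).nullMeasurableSet)
      (fun a b hab => preimage_mono (Ici_subset_Ici.2 hab)) ⟨0, measure_ne_top _ _⟩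
  have hemp : (⋂ J : ℕ, (e ∘ α) ⁻¹' Ici J) = ∅ := by
    apply eq_empty_of_forall_notMem
    intro y hy
    have := mem_iInter.1 hy ((e ∘ α) y + 1)
    simp at this
  rw [hemp, measure_empty] at htend
  obtain ⟨J, hJ⟩ := (htend.eventually (gt_mem_nhds hε)).exists
  refine ⟨(e ∘ α) ⁻¹' Ici J ∪ ⋃ i, (B' i ∆ ((e ∘ α) ⁻¹' {i})),
    (hm measurableSet_Ici).union (MeasurableSet.iUnion fun i => (hB'm i).symmDiff (hB i)), ?_,
    (Finset.range J).sup n, fun y hy y' hy' h => ?_⟩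
  · refine (measure_union_le _ _).trans (add_le_add hJ.le ?_)
    refine (measure_iUnion_le _).trans ((ENNReal.tsum_le_tsum fun i => (hB'ν i).le).trans hδs.le)
  · simp only [mem_union, mem_iUnion, not_or, not_exists, mem_preimage, mem_Ici, not_le,
      mem_symmDiff, mem_singleton_iff, not_and, not_not] at hy hy'
    have h2 : y ∈ B' ((e ∘ α) y) := (hy.2 _).2 rfl
    have h3 := (hn _ y y' fun j hj => h j (lt_of_lt_of_le hj
      (Finset.le_sup (f := n) (Finset.mem_range.2 hy.1)))).1 h2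
    exact he ((hy'.2 _).1 h3).symm

end approx

variable {Ω : Type*} [MeasurableSpace Ω] (μ : Measure Ω) [IsProbabilityMeasure μ]
  {C : Type*} [Countable C]

theorem tsum_tsum_mass_inter {p : T2 × Ω → C} (hp : ∀ c, MeasurableSet (p ⁻¹' {c}))
    {D : Set (T2 × Ω)} (hD : MeasurableSet D) :
    ∑' k, ∑' c, mass μ (p ⁻¹' {c} ∩ D) k = lam.prod μ D := by
  rw [ENNReal.tsum_comm]
  simp only [tsum_mass μ ((hp _).inter hD)]
  rw [← measure_iUnion _ fun c => (hp c).inter hD]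
  · congr 1
    ext y; simp
  · intro c c' h
    refine Set.disjoint_left.2 fun y h1 h2 => h ?_
    exact (h1.1 : p y = c).symm.trans h2.1

omit [IsProbabilityMeasure μ] [Countable C] in
theorem tsum_mass_diff_le {p r : T2 × Ω → C} {D : Set (T2 × Ω)}
    (h : ∀ y ∉ D, ∀ y' ∉ D, p y = p y' ↔ r y = r y') (k : Fin 2 → ℤ) :
    ∑' c, mass μ (p ⁻¹' {c} \ D) k ≤ ∑' c, mass μ (r ⁻¹' {c} \ D) k := by
  let G : Set C := {c | (p ⁻¹' {c} \ D).Nonempty}
  have hG : ∀ c : G, ∃ y, y ∈ p ⁻¹' {c.1} \ D := fun c => c.2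
  choose y hy using hG
  have hsupp : Function.support (fun c => mass μ (p ⁻¹' {c} \ D) k) ⊆ G := by
    intro c hc
    by_contra hcG
    have : p ⁻¹' {c} \ D = ∅ := not_nonempty_iff_eq_empty.1 hcG
    exact hc (by simp only [this, mass_empty])
  rw [← tsum_subtype_eq_of_support_subset hsupp]
  have hinj : Function.Injective fun c : G => r (y c) := by
    intro c c' hcc
    have := (h _ (hy c).2 _ (hy c').2).2 hcc
    exact Subtype.ext (((hy c).1 : p (y c) = c.1).symm.trans (this.trans (hy c').1))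
  refine le_trans (le_of_eq (tsum_congr fun c => ?_))
    (ENNReal.tsum_comp_le_tsum_of_injective hinj fun c => mass μ (r ⁻¹' {c} \ D) k)
  congr 1
  ext w
  simp only [mem_diff, mem_preimage, mem_singleton_iff]
  refine and_congr_left fun hw => ?_
  rw [← h w hw _ (hy c).2, ((hy c).1 : p (y c) = c.1)]

/-- spectral measure of a partition -/
def pmass (p : T2 × Ω → C) (k : Fin 2 → ℤ) : ℝ≥0∞ := ∑' c, mass μ (p ⁻¹' {c}) k

theorem tsum_pmass {p : T2 × Ω → C} (hp : ∀ c, MeasurableSet (p ⁻¹' {c})) :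
    ∑' k, pmass μ p k = 1 := by
  have := tsum_tsum_mass_inter μ hp MeasurableSet.univ
  simpa [pmass] using this

theorem pmass_close {p r : T2 × Ω → C} (hp : ∀ c, MeasurableSet (p ⁻¹' {c}))
    (hr : ∀ c, MeasurableSet (r ⁻¹' {c})) {D : Set (T2 × Ω)} (hD : MeasurableSet D)
    (h : ∀ y ∉ D, ∀ y' ∉ D, p y = p y' ↔ r y = r y') (A : Set (Fin 2 → ℤ)) :
    ∑' k, A.indicator (pmass μ p) k
      ≤ ENNReal.ofReal (4 / 3) * (ENNReal.ofReal (4 / 3) * ∑' k, A.indicator (pmass μ r) k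
        + 4 * lam.prod μ D) + 4 * lam.prod μ D := by
  have key : ∀ k, pmass μ p k ≤ ENNReal.ofReal (4 / 3) * (ENNReal.ofReal (4 / 3) * pmass μ r k
      + 4 * ∑' c, mass μ (r ⁻¹' {c} ∩ D) k) + 4 * ∑' c, mass μ (p ⁻¹' {c} ∩ D) k := by
    intro k
    unfold pmass
    refine (ENNReal.tsum_le_tsum fun c => mass_le_diff μ (hp c) hD k).trans ?_
    rw [ENNReal.tsum_add, ENNReal.tsum_mul_left, ENNReal.tsum_mul_left]
    gcongr
    refine (tsum_mass_diff_le μ h k).trans ?_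
    refine (ENNReal.tsum_le_tsum fun c => mass_diff_le μ (hr c) hD k).trans ?_
    rw [ENNReal.tsum_add, ENNReal.tsum_mul_left, ENNReal.tsum_mul_left]
  conv_rhs =>
    arg 2
    rw [← tsum_tsum_mass_inter μ hp hD]
  rw [← tsum_tsum_mass_inter μ hr hD, ← ENNReal.tsum_mul_left, ← ENNReal.tsum_mul_left,
    ← ENNReal.tsum_mul_left, ← ENNReal.tsum_add, ← ENNReal.tsum_mul_left, ← ENNReal.tsum_add]
  refine ENNReal.tsum_le_tsum fun k => ?_
  by_cases hk : k ∈ A
  · simp only [indicator_of_mem hk]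
    exact key k
  · simp [indicator_of_notMem hk]

omit [IsProbabilityMeasure μ] [Countable C] in
theorem pmass_comp {p : T2 × Ω → C} (hp : ∀ c, MeasurableSet (p ⁻¹' {c})) (g : SL(2, ℤ))
    {σ : Ω → Ω} (hσ : MeasurePreserving σ μ μ) (k : Fin 2 → ℤ) :
    pmass μ (p ∘ Prod.map (act g) σ) k = pmass μ p (k ᵥ* mat g⁻¹) := by
  unfold pmass
  refine tsum_congr fun c => ?_
  rw [preimage_comp, mass_preimage μ (hp c) g hσ]

instance : NullSingletonClass lam := by
  have : Nontrivial UnitAddCircle := by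
    refine ⟨((1 / 2 : ℝ) : UnitAddCircle), 0, fun h => ?_⟩
    obtain ⟨n, hn⟩ := (AddCircle.coe_eq_zero_iff (1 : ℝ)).1 h
    have h2 : ((2 * n : ℤ) : ℝ) = ((1 : ℤ) : ℝ) := by
      simp only [zsmul_eq_mul, mul_one] at hn
      push_cast; linarith
    have := Int.cast_injective h2
    omega
  have : ConnectedSpace T2 := inferInstance
  have : NeBot (𝓝[≠] (0 : T2)) := inferInstance
  infer_instance

theorem pmass_zero_le {p : T2 × Ω → C} (hp : ∀ c, MeasurableSet (p ⁻¹' {c})) :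
    pmass μ p 0 ≤ ((lam.prod lam).prod μ) {w | p (w.1.1, w.2) = p (w.1.2, w.2)} := by
  have hset : {w : (T2 × T2) × Ω | p (w.1.1, w.2) = p (w.1.2, w.2)}
      = ⋃ c, ((fun w : (T2 × T2) × Ω => (w.1.1, w.2)) ⁻¹' (p ⁻¹' {c})
        ∩ (fun w : (T2 × T2) × Ω => (w.1.2, w.2)) ⁻¹' (p ⁻¹' {c})) := by
    ext w; simp [eq_comm]
  have hm : ∀ c, MeasurableSet ((fun w : (T2 × T2) × Ω => (w.1.1, w.2)) ⁻¹' (p ⁻¹' {c})
        ∩ (fun w : (T2 × T2) × Ω => (w.1.2, w.2)) ⁻¹' (p ⁻¹' {c})) := fun c =>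
    ((measurable_fst.fst.prodMk measurable_snd) (hp c)).inter
      ((measurable_fst.snd.prodMk measurable_snd) (hp c))
  rw [hset, measure_iUnion _ hm]
  · refine le_of_eq (tsum_congr fun c => ?_)
    rw [mass_zero μ (hp c), Measure.prod_apply_symm (hm c)]
    refine lintegral_congr fun ω => ?_
    rw [sq, ← Measure.prod_prod]
    congr 1
  · intro c c' h
    refine Set.disjoint_left.2 fun y h1 h2 => h ?_
    exact (h1.1 : p _ = c).symm.trans h2.1

theorem diag_null : ((lam.prod lam).prod μ) {w | w.1.1 = w.1.2} = 0 := by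
  have h1 : {w : (T2 × T2) × Ω | w.1.1 = w.1.2} = {v : T2 × T2 | v.1 = v.2} ×ˢ univ := by
    ext w; simp
  rw [h1, Measure.prod_prod,
    Measure.prod_apply (measurableSet_eq_fun measurable_fst measurable_snd)]
  simp

theorem pingpong_arith {a b z a1 a2 b1 b2 d : ℝ≥0∞} (h1 : a + b + z = 1)
    (hz : z ≤ ENNReal.ofReal (1 / 2)) (hd : d ≤ ENNReal.ofReal (1 / 1000))
    (hb1 : b ≤ ENNReal.ofReal (4 / 3) * (ENNReal.ofReal (4 / 3) * b1 + 4 * d) + 4 * d)
    (hb2 : b ≤ ENNReal.ofReal (4 / 3) * (ENNReal.ofReal (4 / 3) * b2 + 4 * d) + 4 * d)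
    (ha1 : a ≤ ENNReal.ofReal (4 / 3) * (ENNReal.ofReal (4 / 3) * a1 + 4 * d) + 4 * d)
    (ha2 : a ≤ ENNReal.ofReal (4 / 3) * (ENNReal.ofReal (4 / 3) * a2 + 4 * d) + 4 * d)
    (hba : b1 + b2 ≤ a) (hab : a1 + a2 ≤ b) : False := by
  have ha : a ≠ ⊤ := by rintro rfl; simp at h1
  have hb : b ≠ ⊤ := by rintro rfl; simp at h1
  have ha1' : a1 ≠ ⊤ := ne_top_of_le_ne_top hb (le_self_add.trans hab)
  have ha2' : a2 ≠ ⊤ := ne_top_of_le_ne_top hb (le_add_self.trans hab)
  have hb1' : b1 ≠ ⊤ := ne_top_of_le_ne_top ha (le_self_add.trans hba)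
  have hb2' : b2 ≠ ⊤ := ne_top_of_le_ne_top ha (le_add_self.trans hba)
  have hz' : z ≠ ⊤ := ne_top_of_le_ne_top ENNReal.ofReal_ne_top hz
  have hd' : d ≠ ⊤ := ne_top_of_le_ne_top ENNReal.ofReal_ne_top hd
  lift a to NNReal using ha
  lift b to NNReal using hb
  lift a1 to NNReal using ha1'
  lift a2 to NNReal using ha2'
  lift b1 to NNReal using hb1'
  lift b2 to NNReal using hb2'
  lift z to NNReal using hz'
  lift d to NNReal using hd'
  have e1 : ENNReal.ofReal (4 / 3) = ((4 / 3 : NNReal) : ℝ≥0∞) := by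
    rw [← ENNReal.ofReal_coe_nnreal]; norm_num
  have e2 : ENNReal.ofReal (1 / 2) = ((1 / 2 : NNReal) : ℝ≥0∞) := by
    rw [← ENNReal.ofReal_coe_nnreal]; norm_num
  have e3 : ENNReal.ofReal (1 / 1000) = ((1 / 1000 : NNReal) : ℝ≥0∞) := by
    rw [← ENNReal.ofReal_coe_nnreal]; norm_num
  have e4 : (4 : ℝ≥0∞) = ((4 : NNReal) : ℝ≥0∞) := by simp
  rw [e1, e4] at hb1 hb2 ha1 ha2
  rw [e2] at hz
  rw [e3] at hd
  simp only [← ENNReal.coe_mul, ← ENNReal.coe_add, ENNReal.coe_le_coe, ENNReal.coe_eq_one,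
    ← NNReal.coe_le_coe, ← NNReal.coe_inj] at *
  push_cast at *
  linarith

/-- right multiplication by a matrix as a permutation of the frequencies -/
def freq (h : SL(2, ℤ)) : (Fin 2 → ℤ) ≃ (Fin 2 → ℤ) where
  toFun k := k ᵥ* mat h
  invFun k := k ᵥ* mat h⁻¹
  left_inv k := by simp only [Matrix.vecMul_vecMul, ← mat_mul, mul_inv_cancel, mat_one]; simp
  right_inv k := by simp only [Matrix.vecMul_vecMul, ← mat_mul, inv_mul_cancel, mat_one]; simp

theorem two_translates (M : (Fin 2 → ℤ) → ℝ≥0∞) (h h' : SL(2, ℤ)) (A B : Set (Fin 2 → ℤ))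
    (h1 : ∀ k ∈ B, k ᵥ* mat h ∈ A) (h2 : ∀ k ∈ B, k ᵥ* mat h' ∈ A)
    (h3 : ∀ k ∈ B, ∀ k' ∈ B, k ᵥ* mat h ≠ k' ᵥ* mat h') :
    ∑' k, B.indicator (fun k => M (k ᵥ* mat h)) k + ∑' k, B.indicator (fun k => M (k ᵥ* mat h')) k
      ≤ ∑' k, A.indicator M k := by
  rw [← (freq h).symm.tsum_eq, ← (freq h').symm.tsum_eq
    (fun k => B.indicator (fun k => M (k ᵥ* mat h')) k), ← ENNReal.tsum_add]
  refine ENNReal.tsum_le_tsum fun k => ?_
  have e1 : (freq h).symm k ᵥ* mat h = k := (freq h).apply_symm_apply k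
  have e2 : (freq h').symm k ᵥ* mat h' = k := (freq h').apply_symm_apply k
  by_cases a : (freq h).symm k ∈ B <;> by_cases b : (freq h').symm k ∈ B
  · exact absurd (e1.trans e2.symm) (h3 _ a _ b)
  · have := h1 _ a
    rw [e1] at this
    simp [a, b, e1, this]
  · have := h2 _ b
    rw [e2] at this
    simp [a, b, e2, this]
  · simp [a, b]

/-- lower unipotent matrices -/
def lowU (t : ℤ) : SL(2, ℤ) := ⟨!![1, 0; t, 1], by simp [Matrix.det_fin_two]⟩

/-- upper unipotent matrices -/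
def upU (t : ℤ) : SL(2, ℤ) := ⟨!![1, t; 0, 1], by simp [Matrix.det_fin_two]⟩

theorem lowU_0 (t : ℤ) (k : Fin 2 → ℤ) : (k ᵥ* mat (lowU t)) 0 = k 0 + k 1 * t := by
  simp [mat, lowU, Matrix.vecMul, dotProduct]

theorem lowU_1 (t : ℤ) (k : Fin 2 → ℤ) : (k ᵥ* mat (lowU t)) 1 = k 1 := by
  simp [mat, lowU, Matrix.vecMul, dotProduct]

theorem upU_0 (t : ℤ) (k : Fin 2 → ℤ) : (k ᵥ* mat (upU t)) 0 = k 0 := by
  simp [mat, upU, Matrix.vecMul, dotProduct]

theorem upU_1 (t : ℤ) (k : Fin 2 → ℤ) : (k ᵥ* mat (upU t)) 1 = k 0 * t + k 1 := by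
  simp [mat, upU, Matrix.vecMul, dotProduct]

theorem pingpong (M : (Fin 2 → ℤ) → ℝ≥0∞) (hM : ∑' k, M k = 1)
    (h0 : M 0 ≤ ENNReal.ofReal (1 / 2)) (d : ℝ≥0∞) (hd : d ≤ ENNReal.ofReal (1 / 1000))
    (H : ∀ h ∈ ({lowU 3, lowU (-3), upU 3, upU (-3)} : Set SL(2, ℤ)), ∀ A : Set (Fin 2 → ℤ),
      ∑' k, A.indicator M k ≤ ENNReal.ofReal (4 / 3) * (ENNReal.ofReal (4 / 3) *
        ∑' k, A.indicator (fun k => M (k ᵥ* mat h)) k + 4 * d) + 4 * d) : False := by
  let A : Set (Fin 2 → ℤ) := {k | (k 1).natAbs < (k 0).natAbs}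
  let B : Set (Fin 2 → ℤ) := {k | (k 0).natAbs ≤ (k 1).natAbs ∧ k 1 ≠ 0}
  refine pingpong_arith (a := ∑' k, A.indicator M k) (b := ∑' k, B.indicator M k) (z := M 0)
    ?_ h0 hd (H (lowU 3) (by simp) B) (H (lowU (-3)) (by simp) B) (H (upU 3) (by simp) A)
    (H (upU (-3)) (by simp) A) ?_ ?_
  · rw [← hM, ← tsum_ite_eq (0 : Fin 2 → ℤ) (fun _ => M 0), ← ENNReal.tsum_add,
      ← ENNReal.tsum_add]
    refine tsum_congr fun k => ?_
    by_cases hk : k = 0
    · subst hk; simp [A, B]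
    · have hk' : ¬ (k 0 = 0 ∧ k 1 = 0) := by
        rintro ⟨a, b⟩
        apply hk
        ext i; fin_cases i <;> simp [a, b]
      by_cases ha : k ∈ A
      · have hb : k ∉ B := by
          simp only [A, B, mem_setOf_eq] at ha ⊢; omega
        simp [ha, hb, hk]
      · have hb : k ∈ B := by
          simp only [A, B, mem_setOf_eq] at ha ⊢; omega
        simp [ha, hb, hk]
  · refine two_translates M _ _ A B ?_ ?_ ?_
    · intro k hk
      simp only [A, B, mem_setOf_eq, lowU_0, lowU_1] at hk ⊢; omega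
    · intro k hk
      simp only [A, B, mem_setOf_eq, lowU_0, lowU_1] at hk ⊢; omega
    · intro k hk k' hk' h
      have a0 := congrFun h 0
      have a1 := congrFun h 1
      simp only [B, mem_setOf_eq, lowU_0, lowU_1] at hk hk' a0 a1; omega
  · refine two_translates M _ _ B A ?_ ?_ ?_
    · intro k hk
      simp only [A, B, mem_setOf_eq, upU_0, upU_1] at hk ⊢; omega
    · intro k hk
      simp only [A, B, mem_setOf_eq, upU_0, upU_1] at hk ⊢; omega
    · intro k hk k' hk' h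
      have a0 := congrFun h 0
      have a1 := congrFun h 1
      simp only [A, mem_setOf_eq, upU_0, upU_1] at hk hk' a0 a1; omega

theorem core [StandardBorelSpace Ω] (σ : SL(2, ℤ) → Ω → Ω)
    (hσ : ∀ g, MeasurePreserving (σ g) μ μ) (hσinv : ∀ g ω, σ g⁻¹ (σ g ω) = ω)
    (q : ℕ → T2 × Ω → C) (hq : ∀ j c, MeasurableSet (q j ⁻¹' {c}))
    (hsep : ∀ y y', (∀ j, q j y = q j y') → y = y') {D : Type*} [Countable D]
    (α : SL(2, ℤ) → T2 × Ω → D) (hα : ∀ g d, MeasurableSet (α g ⁻¹' {d}))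
    (hinv : ∀ g j y y', q j y = q j y' → α g y = α g y' →
      q j (Prod.map (act g) (σ g) y) = q j (Prod.map (act g) (σ g) y')) : False := by
  let ν := lam.prod μ
  let Φ : SL(2, ℤ) → T2 × Ω → T2 × Ω := fun g => Prod.map (act g) (σ g)
  have hΦ : ∀ g, MeasurePreserving (Φ g) ν ν := fun g => (measurePreserving_act g).prod (hσ g)
  have hΦinv : ∀ g y, Φ g⁻¹ (Φ g y) = y := by
    rintro g ⟨z, ω⟩
    simp only [Φ, Prod.map_apply, hσinv, ← act_mul, inv_mul_cancel, act_one]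
  have hε : (0 : ℝ≥0∞) < ENNReal.ofReal (1 / 4000) := by simp
  have h1 := fun g => approx_fun ν q hq hsep (α g) (hα g) hε
  choose Bad hBm hBν n hn using h1
  let p : ∀ m : ℕ, T2 × Ω → Fin m → C := fun m y j => q j y
  have hp : ∀ m c, MeasurableSet (p m ⁻¹' {c}) := by
    intro m c
    have : p m ⁻¹' {c} = ⋂ j : Fin m, q j ⁻¹' {c j} := by
      ext y; simp [p, funext_iff]
    rw [this]
    exact MeasurableSet.iInter fun j => hq _ _
  -- the mass at frequency zero tends to zero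
  let E : ℕ → Set ((T2 × T2) × Ω) := fun m => {w | p m (w.1.1, w.2) = p m (w.1.2, w.2)}
  have hEm : ∀ m, MeasurableSet (E m) := by
    intro m
    have : E m = ⋃ c, ((fun w : (T2 × T2) × Ω => (w.1.1, w.2)) ⁻¹' (p m ⁻¹' {c})
        ∩ (fun w : (T2 × T2) × Ω => (w.1.2, w.2)) ⁻¹' (p m ⁻¹' {c})) := by
      ext w; simp [E, eq_comm]
    rw [this]
    exact MeasurableSet.iUnion fun c =>
      ((measurable_fst.fst.prodMk measurable_snd) (hp m c)).inter
        ((measurable_fst.snd.prodMk measurable_snd) (hp m c))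
  have hEa : Antitone E := by
    intro a b hab w hw
    simp only [E, p, mem_setOf_eq, funext_iff] at hw ⊢
    exact fun j => hw ⟨j, lt_of_lt_of_le j.2 hab⟩
  have htend := tendsto_measure_iInter_atTop (μ := (lam.prod lam).prod μ)
    (fun m => (hEm m).nullMeasurableSet) hEa ⟨0, measure_ne_top _ _⟩
  have hnull : ((lam.prod lam).prod μ) (⋂ m, E m) = 0 := by
    refine measure_mono_null (fun w hw => ?_) (diag_null μ)
    have := hsep (w.1.1, w.2) (w.1.2, w.2) fun j =>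
      congrFun (mem_iInter.1 hw (j + 1)) ⟨j, Nat.lt_succ_self j⟩
    exact congrArg Prod.fst this
  rw [hnull] at htend
  have hhalf : (0 : ℝ≥0∞) < ENNReal.ofReal (1 / 2) := by simp
  have hfin : ({lowU 3, lowU (-3), upU 3, upU (-3)} : Set SL(2, ℤ)).Finite := by simp
  have hev : ∀ᶠ m in atTop, ∀ h ∈ ({lowU 3, lowU (-3), upU 3, upU (-3)} : Set SL(2, ℤ)),
      n h ≤ m ∧ n h⁻¹ ≤ m :=
    (eventually_all_finite hfin).2 fun h _ => (eventually_ge_atTop _).and (eventually_ge_atTop _)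
  obtain ⟨m, hm1, hm2⟩ := ((htend.eventually (gt_mem_nhds hhalf)).and hev).exists
  refine pingpong (pmass μ (p m)) (tsum_pmass μ (hp m)) ((pmass_zero_le μ (hp m)).trans hm1.le)
    (ENNReal.ofReal (1 / 1000)) le_rfl fun h hh A => ?_
  obtain ⟨hn1, hn2⟩ := hm2 h hh
  have hDm : MeasurableSet (Bad h⁻¹ ∪ Φ h⁻¹ ⁻¹' Bad h) :=
    (hBm _).union ((hΦ _).measurable (hBm _))
  have hDν : ν (Bad h⁻¹ ∪ Φ h⁻¹ ⁻¹' Bad h) ≤ ENNReal.ofReal (1 / 1000) := by
    refine (measure_union_le _ _).trans ?_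
    rw [(hΦ _).measure_preimage (hBm _).nullMeasurableSet]
    refine (add_le_add (hBν _) (hBν _)).trans ?_
    rw [← ENNReal.ofReal_add (by norm_num) (by norm_num),
      ← ENNReal.ofReal_add (by norm_num) (by norm_num)]
    exact ENNReal.ofReal_le_ofReal (by norm_num)
  have hclose := pmass_close μ (p := p m) (r := p m ∘ Φ h⁻¹) (hp m)
    (fun c => (hΦ _).measurable (hp m c)) hDm (by
      intro y hy y' hy'
      simp only [mem_union, mem_preimage, not_or] at hy hy'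
      constructor
      · intro hpp
        have hqq : ∀ j < m, q j y = q j y' := fun j hj => congrFun hpp ⟨j, hj⟩
        have := hn h⁻¹ y hy.1 y' hy'.1 fun j hj => hqq j (lt_of_lt_of_le hj hn2)
        funext j
        exact hinv h⁻¹ j y y' (hqq j j.2) this
      · intro hpp
        have hqq : ∀ j < m, q j (Φ h⁻¹ y) = q j (Φ h⁻¹ y') := fun j hj => congrFun hpp ⟨j, hj⟩
        have := hn h _ hy.2 _ hy'.2 fun j hj => hqq j (lt_of_lt_of_le hj hn1)
        funext j
        have h2 := hinv h j _ _ (hqq j j.2) this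
        have e1 := hΦinv h⁻¹ y
        have e2 := hΦinv h⁻¹ y'
        rw [inv_inv] at e1 e2
        change q j (Φ h (Φ h⁻¹ y)) = q j (Φ h (Φ h⁻¹ y')) at h2
        rwa [e1, e2] at h2) A
  have hcomp : pmass μ (p m ∘ Φ h⁻¹) = fun k => pmass μ (p m) (k ᵥ* mat h) := by
    funext k
    have := pmass_comp μ (hp m) h⁻¹ (hσ h⁻¹) k
    rwa [inv_inv] at this
  rw [hcomp] at hclose
  refine hclose.trans ?_
  gcongr

end

end Pool.Agent.Lib.MP_10b896_lc
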