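import Mathlib

/-! Countable Borel equivalence relations, infinitary sentences, structurability. -/

namespace Pool.Agent.Lib.MP_10b896_lc

/-- A countable Borel equivalence relation `r` on a standard Borel space `X`. -/
structure CBER where
  /-- the underlying standard Borel space -/
  X : Type
  [mX : MeasurableSpace X]
  [sX : StandardBorelSpace X]
  /-- the relation -/
  r : X → X → Prop
  equiv : Equivalence r
  borel : MeasurableSet {p : X × X | r p.1 p.2}
  countable : ∀ x, {y | r x y}.Countable

attribute [instance] CBER.mX CBER.sX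

/-- Borel isomorphism: a Borel bijection `f` with `x E x' ↔ f x F f x'`. -/
def BorelIso (E F : CBER) : Prop :=
  ∃ f : E.X → F.X, Measurable f ∧ Function.Bijective f ∧
    ∀ x x', E.r x x' ↔ F.r (f x) (f x')

/-- Invariant Borel embedding: a Borel injection `f` with `x E x' ↔ f x F f x'` whose image is
`F`-invariant. -/
def InvEmbeds (E F : CBER) : Prop :=
  ∃ f : E.X → F.X, Measurable f ∧ Function.Injective f ∧
    (∀ x x', E.r x x' ↔ F.r (f x) (f x')) ∧ ∀ x y, F.r (f x) y → y ∈ Set.range f

/-- Borel reducibility: a Borel map `f` with `x E x' ↔ f x F f x'`. -/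
def Reduces (E F : CBER) : Prop :=
  ∃ f : E.X → F.X, Measurable f ∧ ∀ x x', E.r x x' ↔ F.r (f x) (f x')

/-- Continuum many disjoint copies of `E`: the relation `x E x' ∧ s = s'` on `X × ℝ`. -/
def timesR (E : CBER) : CBER where
  X := E.X × ℝ
  r p p' := E.r p.1 p'.1 ∧ p.2 = p'.2
  equiv := ⟨fun p => ⟨E.equiv.refl p.1, rfl⟩, fun h => ⟨E.equiv.symm h.1, h.2.symm⟩,
    fun h h' => ⟨E.equiv.trans h.1 h'.1, h.2.trans h'.2⟩⟩
  borel := ((measurable_fst.fst.prodMk measurable_snd.fst) E.borel).inter
    (measurableSet_eq_fun measurable_fst.snd measurable_snd.snd)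
  countable p := ((E.countable p.1).prod (Set.countable_singleton p.2)).mono
    fun _ h => Set.mem_prod.2 ⟨h.1, h.2.symm⟩

/-- A countable relational language. -/
structure RelLang where
  /-- relation symbols -/
  Sym : Type
  countable : Countable Sym
  /-- arity of a symbol -/
  arity : Sym → ℕ

/-- Formulas of `L_{ω₁ω}` with free variables among `0, …, n-1`; sentences are `Fml L 0`. -/
inductive Fml (L : RelLang) : ℕ → Type
  | eq {n : ℕ} (i j : Fin n) : Fml L n
  | rel {n : ℕ} (R : L.Sym) (a : Fin (L.arity R) → Fin n) : Fml L n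
  | not {n : ℕ} (φ : Fml L n) : Fml L n
  | iAnd {n : ℕ} (φ : ℕ → Fml L n) : Fml L n
  | iOr {n : ℕ} (φ : ℕ → Fml L n) : Fml L n
  | ex {n : ℕ} (φ : Fml L (n + 1)) : Fml L n
  | all {n : ℕ} (φ : Fml L (n + 1)) : Fml L n

/-- Satisfaction in the structure with universe `M` and relations `I`, under the valuation `v`. -/
def Fml.Sat {L : RelLang} {M : Type} (I : ∀ R : L.Sym, (Fin (L.arity R) → M) → Prop)
    {n : ℕ} (φ : Fml L n) : (Fin n → M) → Prop :=
  Fml.rec (motive := fun n _ => (Fin n → M) → Prop)
    (fun i j v => v i = v j)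
    (fun R a v => I R (fun i => v (a i)))
    (fun _ sat v => ¬ sat v)
    (fun _ sat v => ∀ k, sat k v)
    (fun _ sat v => ∃ k, sat k v)
    (fun _ sat v => ∃ m, sat (Fin.snoc v m))
    (fun _ sat v => ∀ m, sat (Fin.snoc v m))
    φ

/-- `E` carries a Borel `σ`-structure: Borel relations on `X`, holding only on tuples of pairwise
equivalent points, whose restriction to every class is a model of `σ`. -/
def Structurable {L : RelLang} (σ : Fml L 0) (E : CBER) : Prop :=
  ∃ I : ∀ R : L.Sym, (Fin (L.arity R) → E.X) → Prop,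
    (∀ R, MeasurableSet {t | I R t}) ∧
    (∀ R t, I R t → ∀ i j, E.r (t i) (t j)) ∧
    ∀ x, σ.Sat (M := {y // E.r x y}) (fun R t => I R fun i => (t i).1) Fin.elim0

/-- `U` is an invariantly universal element of the class of `σ`-structurable relations. -/
def InvUniversal {L : RelLang} (σ : Fml L 0) (U : CBER) : Prop :=
  Structurable σ U ∧ ∀ F : CBER, Structurable σ F → InvEmbeds F U

/-- `E` is universally structurable: Borel isomorphic to an invariantly universal
`σ`-structurable relation, for some language and some sentence `σ`. -/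
def UnivStructurable (E : CBER) : Prop :=
  ∃ (L : RelLang) (σ : Fml L 0) (U : CBER), InvUniversal σ U ∧ BorelIso E U

end Pool.Agent.Lib.MP_10b896_lc
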