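import Mathlib

/-! Fourier analysis on the two-torus with a parameter. -/

open Set MeasureTheory Topology Filter UnitAddTorus Matrix
open scoped ENNReal MatrixGroups

namespace Pool.Agent.Lib.MP_10b896_lc

noncomputable section

/-- the normalised measure on the circle -/
local instance circleMeasure : MeasureSpace UnitAddCircle := ⟨AddCircle.haarAddCircle⟩

local instance : Measure.IsAddHaarMeasure (volume : Measure UnitAddCircle) :=
  inferInstanceAs (Measure.IsAddHaarMeasure AddCircle.haarAddCircle)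

local instance : IsProbabilityMeasure (volume : Measure UnitAddCircle) :=
  inferInstanceAs (IsProbabilityMeasure AddCircle.haarAddCircle)

/-- the two-torus -/
abbrev T2 : Type := UnitAddTorus (Fin 2)

/-- Haar probability measure of the two-torus -/
def lam : Measure T2 := volume

instance : IsProbabilityMeasure lam := inferInstanceAs (IsProbabilityMeasure (volume : Measure T2))

instance : Measure.IsAddHaarMeasure lam :=
  inferInstanceAs (Measure.IsAddHaarMeasure (volume : Measure T2))

/-- the matrix of an element -/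
def mat (g : SL(2, ℤ)) : Matrix (Fin 2) (Fin 2) ℤ := g.1

theorem mat_mul (g h : SL(2, ℤ)) : mat (g * h) = mat g * mat h := rfl

theorem mat_one : mat 1 = 1 := rfl

/-- the linear action on the torus -/
def act (g : SL(2, ℤ)) : T2 →+ T2 where
  toFun z := fun i => ∑ j, mat g i j • z j
  map_zero' := by ext i; simp
  map_add' z w := by ext i; simp [Finset.sum_add_distrib]

theorem act_apply (g : SL(2, ℤ)) (z : T2) (i : Fin 2) : act g z i = ∑ j, mat g i j • z j := rfl

theorem act_mul (g h : SL(2, ℤ)) (z : T2) : act (g * h) z = act g (act h z) := by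
  ext i
  simp only [act_apply, mat_mul, Matrix.mul_apply, Fin.sum_univ_two,
    smul_add, add_smul, mul_smul]
  abel

theorem act_one (z : T2) : act 1 z = z := by
  ext i
  fin_cases i <;> simp [act_apply, mat_one]

theorem continuous_act (g : SL(2, ℤ)) : Continuous (act g) := by
  refine continuous_pi fun i => ?_
  simp only [act_apply]
  fun_prop

theorem measurePreserving_act (g : SL(2, ℤ)) : MeasurePreserving (act g) lam lam := by
  refine AddMonoidHom.measurePreserving (continuous_act g) (fun z => ⟨act g⁻¹ z, ?_⟩) (by simp)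
  rw [← act_mul, mul_inv_cancel, act_one]

theorem fourier_zsmul_right (n m : ℤ) (x : UnitAddCircle) :
    fourier n (m • x) = fourier (n * m) x := by
  simp only [fourier_apply, mul_smul]

theorem fourier_add_right (n : ℤ) (x y : UnitAddCircle) :
    fourier n (x + y) = fourier n x * fourier n y := by
  simp only [fourier_apply, smul_add, AddCircle.toCircle_add, Circle.coe_mul]

theorem mFourier_act (g : SL(2, ℤ)) (k : Fin 2 → ℤ) (z : T2) :
    mFourier k (act g z) = mFourier (k ᵥ* mat g) z := by
  simp only [mFourier, ContinuousMap.coe_mk, Fin.prod_univ_two, act_apply, Fin.sum_univ_two,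
    fourier_add_right, fourier_zsmul_right, Matrix.vecMul, dotProduct, fourier_add]
  ring

theorem parseval_indicator {S : Set T2} (hS : MeasurableSet S) :
    ∑' k, ‖mFourierCoeff (S.indicator (1 : T2 → ℂ)) k‖ₑ ^ 2 = lam S := by
  have hmem : MemLp (S.indicator (1 : T2 → ℂ)) 2 (volume : Measure T2) :=
    memLp_indicator_const 2 hS (1 : ℂ) (Or.inr (measure_ne_top _ _))
  have h := hasSum_sq_mFourierCoeff hmem.toLp
  have h1 : ∀ k, mFourierCoeff (hmem.toLp : T2 → ℂ) k
      = mFourierCoeff (S.indicator (1 : T2 → ℂ)) k := by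
    intro k
    refine integral_congr_ae ?_
    filter_upwards [hmem.coeFn_toLp] with t ht
    rw [ht]
  have h2 : ∫ t, ‖(hmem.toLp : T2 → ℂ) t‖ ^ 2 = lam.real S := by
    rw [← integral_indicator_one hS]
    refine integral_congr_ae ?_
    filter_upwards [hmem.coeFn_toLp] with t ht
    rw [ht]
    by_cases hts : t ∈ S <;> simp [hts]
  simp only [h1, h2] at h
  have h3 := ENNReal.ofReal_tsum_of_nonneg (fun k => by positivity) h.summable
  rw [h.tsum_eq, ofReal_measureReal] at h3
  rw [h3]
  refine tsum_congr fun k => ?_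
  rw [ENNReal.ofReal_pow (norm_nonneg _), ofReal_norm_eq_enorm]

variable {Ω : Type*} [MeasurableSpace Ω]

/-- Fourier coefficient of a section of a set -/
def coef (S : Set (T2 × Ω)) (k : Fin 2 → ℤ) (ω : Ω) : ℂ :=
  mFourierCoeff (((fun z => (z, ω)) ⁻¹' S).indicator (1 : T2 → ℂ)) k

theorem coef_eq (S : Set (T2 × Ω)) (k : Fin 2 → ℤ) (ω : Ω) :
    coef S k ω = ∫ z, S.indicator (fun y => mFourier (-k) y.1) (z, ω) ∂lam := by
  unfold coef mFourierCoeff lam
  refine integral_congr_ae (Eventually.of_forall fun z => ?_)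
  by_cases h : (z, ω) ∈ S <;> simp [h]

theorem measurable_coef {S : Set (T2 × Ω)} (hS : MeasurableSet S) (k : Fin 2 → ℤ) :
    Measurable (coef S k) := by
  have : coef S k = fun ω => ∫ z, S.indicator (fun y => mFourier (-k) y.1) (z, ω) ∂lam :=
    funext (coef_eq S k)
  rw [this]
  refine StronglyMeasurable.measurable (StronglyMeasurable.integral_prod_left' (μ := lam)
    (f := S.indicator (fun y => mFourier (-k) y.1)) ?_)
  exact (((mFourier (-k)).continuous.measurable.comp measurable_fst).indicator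
    hS).stronglyMeasurable

theorem integrable_section {S : Set (T2 × Ω)} (hS : MeasurableSet S) (k : Fin 2 → ℤ) (ω : Ω) :
    Integrable (fun z => S.indicator (fun y => mFourier (-k) y.1) (z, ω)) lam := by
  have h1 : (fun z => S.indicator (fun y : T2 × Ω => mFourier (-k) y.1) (z, ω))
      = ((fun z => (z, ω)) ⁻¹' S).indicator (mFourier (-k)) := by
    ext z
    by_cases h : (z, ω) ∈ S <;> simp [h]
  rw [h1]
  refine Integrable.indicator ?_ (measurable_prodMk_right hS)
  exact (mFourier (-k)).continuous.integrable_of_hasCompactSupport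
    (HasCompactSupport.of_compactSpace _)

theorem coef_split {S D : Set (T2 × Ω)} (hS : MeasurableSet S) (hD : MeasurableSet D)
    (k : Fin 2 → ℤ) (ω : Ω) : coef S k ω = coef (S \ D) k ω + coef (S ∩ D) k ω := by
  simp only [coef_eq]
  rw [← integral_add (integrable_section (hS.diff hD) k ω) (integrable_section (hS.inter hD) k ω)]
  refine integral_congr_ae (Eventually.of_forall fun z => ?_)
  by_cases h : (z, ω) ∈ S <;> by_cases h' : (z, ω) ∈ D <;> simp [h, h']

theorem enorm_sq_le {a b c : ℂ} (h : ‖a‖ ≤ ‖b‖ + ‖c‖) :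
    ‖a‖ₑ ^ 2 ≤ ENNReal.ofReal (4 / 3) * ‖b‖ₑ ^ 2 + 4 * ‖c‖ₑ ^ 2 := by
  have h4 : (4 : ℝ≥0∞) = ENNReal.ofReal 4 := by simp
  simp only [← ofReal_norm_eq_enorm]
  rw [h4, ← ENNReal.ofReal_pow (norm_nonneg _), ← ENNReal.ofReal_pow (norm_nonneg _),
    ← ENNReal.ofReal_pow (norm_nonneg _), ← ENNReal.ofReal_mul (by norm_num),
    ← ENNReal.ofReal_mul (by norm_num), ← ENNReal.ofReal_add (by positivity) (by positivity)]
  apply ENNReal.ofReal_le_ofReal
  have := norm_nonneg a
  have := norm_nonneg b
  have := norm_nonneg c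
  nlinarith [sq_nonneg (‖b‖ - 3 * ‖c‖)]

variable (μ : Measure Ω)

/-- spectral mass of a set at the frequency `k` -/
def mass (S : Set (T2 × Ω)) (k : Fin 2 → ℤ) : ℝ≥0∞ := ∫⁻ ω, ‖coef S k ω‖ₑ ^ 2 ∂μ

theorem mass_empty (k : Fin 2 → ℤ) : mass μ (∅ : Set (T2 × Ω)) k = 0 := by
  simp [mass, coef_eq]

theorem tsum_mass [SFinite μ] {S : Set (T2 × Ω)} (hS : MeasurableSet S) :
    ∑' k, mass μ S k = lam.prod μ S := by
  unfold mass
  rw [← lintegral_tsum fun k => ((measurable_coef hS k).enorm.pow_const 2).aemeasurable,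
    Measure.prod_apply_symm hS]
  refine lintegral_congr fun ω => ?_
  exact parseval_indicator (measurable_prodMk_right hS)

theorem mass_le_of {S S' S'' : Set (T2 × Ω)} (h' : MeasurableSet S') (h'' : MeasurableSet S'')
    (k : Fin 2 → ℤ) (h : ∀ ω, ‖coef S k ω‖ ≤ ‖coef S' k ω‖ + ‖coef S'' k ω‖) :
    mass μ S k ≤ ENNReal.ofReal (4 / 3) * mass μ S' k + 4 * mass μ S'' k := by
  unfold mass
  have m1 := (measurable_coef h' k).enorm.pow_const 2
  have m2 := (measurable_coef h'' k).enorm.pow_const 2
  rw [← lintegral_const_mul _ m1, ← lintegral_const_mul _ m2,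
    ← lintegral_add_left (m1.const_mul _)]
  exact lintegral_mono fun ω => enorm_sq_le (h ω)

theorem mass_le_diff {S D : Set (T2 × Ω)} (hS : MeasurableSet S) (hD : MeasurableSet D)
    (k : Fin 2 → ℤ) :
    mass μ S k ≤ ENNReal.ofReal (4 / 3) * mass μ (S \ D) k + 4 * mass μ (S ∩ D) k := by
  refine mass_le_of μ (hS.diff hD) (hS.inter hD) k fun ω => ?_
  rw [coef_split hS hD]
  exact norm_add_le _ _

theorem mass_diff_le {S D : Set (T2 × Ω)} (hS : MeasurableSet S) (hD : MeasurableSet D)
    (k : Fin 2 → ℤ) :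
    mass μ (S \ D) k ≤ ENNReal.ofReal (4 / 3) * mass μ S k + 4 * mass μ (S ∩ D) k := by
  refine mass_le_of μ hS (hS.inter hD) k fun ω => ?_
  have : coef (S \ D) k ω = coef S k ω - coef (S ∩ D) k ω := by
    rw [coef_split hS hD]; ring
  rw [this]
  exact norm_sub_le _ _

theorem coef_preimage {S : Set (T2 × Ω)} (hS : MeasurableSet S) (g : SL(2, ℤ)) (σ : Ω → Ω)
    (k : Fin 2 → ℤ) (ω : Ω) :
    coef (Prod.map (act g) σ ⁻¹' S) k ω
      = coef S (k ᵥ* mat g⁻¹) (σ ω) := by
  simp only [coef_eq]
  set k' := k ᵥ* mat g⁻¹ with hk'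
  have hk : k' ᵥ* mat g = k := by
    rw [hk', Matrix.vecMul_vecMul, ← mat_mul, inv_mul_cancel, mat_one]
    simp
  have h := (measurePreserving_act g).map_eq
  have hint := integrable_section hS k' (σ ω)
  conv_rhs => rw [← h]
  rw [integral_map (measurePreserving_act g).measurable.aemeasurable
    (by rw [h]; exact hint.aestronglyMeasurable)]
  refine integral_congr_ae (Eventually.of_forall fun z => ?_)
  by_cases hz : (act g z, σ ω) ∈ S
  · have : (z, ω) ∈ Prod.map (act g) σ ⁻¹' S := hz
    simp only [indicator_of_mem hz, indicator_of_mem this, mFourier_act, Matrix.neg_vecMul, hk]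
  · have : (z, ω) ∉ Prod.map (act g) σ ⁻¹' S := hz
    simp only [indicator_of_notMem hz, indicator_of_notMem this]

theorem mass_preimage {S : Set (T2 × Ω)} (hS : MeasurableSet S) (g : SL(2, ℤ)) {σ : Ω → Ω}
    (hσ : MeasurePreserving σ μ μ) (k : Fin 2 → ℤ) :
    mass μ (Prod.map (act g) σ ⁻¹' S) k
      = mass μ S (k ᵥ* mat g⁻¹) := by
  unfold mass
  simp only [coef_preimage hS]
  exact hσ.lintegral_comp ((measurable_coef hS _).enorm.pow_const 2)

theorem mass_zero {S : Set (T2 × Ω)} (hS : MeasurableSet S) :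
    mass μ S 0 = ∫⁻ ω, lam ((fun z => (z, ω)) ⁻¹' S) ^ 2 ∂μ := by
  unfold mass
  refine lintegral_congr fun ω => ?_
  congr 1
  have hm : MeasurableSet ((fun z => (z, ω)) ⁻¹' S) := measurable_prodMk_right hS
  have : coef S 0 ω = (lam.real ((fun z => (z, ω)) ⁻¹' S) : ℝ) := by
    rw [coef_eq, ← integral_indicator_one hm, ← integral_complex_ofReal]
    refine integral_congr_ae (Eventually.of_forall fun z => ?_)
    by_cases h : (z, ω) ∈ S <;> simp [h, mFourier_zero]
  rw [this, ← ofReal_norm_eq_enorm, Complex.norm_real, Real.norm_of_nonneg measureReal_nonneg,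
    ofReal_measureReal]

end

end Pool.Agent.Lib.MP_10b896_lc
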