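import Mathlib

/-! The Lusin-Novikov theorem: a countable-to-one Borel map between standard Borel spaces is
injective on each piece of a countable Borel cover. -/

open Set MeasureTheory Topology Filter

namespace Pool.Agent.Lib.MP_10b896_lc

section polish

variable {Z X : Type*} [MetricSpace Z] [CompleteSpace Z] [SecondCountableTopology Z]
  [MeasurableSpace Z] [BorelSpace Z]
  [TopologicalSpace X] [PolishSpace X] [MeasurableSpace X] [BorelSpace X]

/-- sets covered by countably many Borel sets on which `f` is injective -/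
def Small (f : Z → X) (S : Set Z) : Prop :=
  ∃ A : ℕ → Set Z, (∀ n, MeasurableSet (A n)) ∧ (∀ n, InjOn f (A n)) ∧ S ⊆ ⋃ n, A n

omit [MetricSpace Z] [CompleteSpace Z] [SecondCountableTopology Z] [BorelSpace Z]
  [TopologicalSpace X] [PolishSpace X] [MeasurableSpace X] [BorelSpace X] in
theorem Small.iUnion {f : Z → X} {ι : Type*} [Countable ι] {S : ι → Set Z}
    (h : ∀ i, Small f (S i)) : Small f (⋃ i, S i) := by
  classical
  choose A hm hi hs using h
  obtain ⟨e, he⟩ : ∃ e : ℕ → Option (ι × ℕ), Function.Surjective e :=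
    exists_surjective_nat _
  refine ⟨fun n => match e n with
    | none => ∅
    | some p => A p.1 p.2, ?_, ?_, ?_⟩
  · intro n
    cases h : e n <;> simp [h, hm]
  · intro n
    cases h : e n <;> simp [h, hi]
  · intro z hz
    obtain ⟨i, hzi⟩ := mem_iUnion.1 hz
    obtain ⟨k, hk⟩ := mem_iUnion.1 (hs i hzi)
    obtain ⟨n, hn⟩ := he (some (i, k))
    exact mem_iUnion.2 ⟨n, by simp [hn, hk]⟩

omit [MetricSpace Z] [CompleteSpace Z] [SecondCountableTopology Z] [BorelSpace Z]
  [TopologicalSpace X] [PolishSpace X] [MeasurableSpace X] [BorelSpace X] in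
theorem Small.mono {f : Z → X} {S T : Set Z} (h : Small f T) (hST : S ⊆ T) : Small f S := by
  obtain ⟨A, h1, h2, h3⟩ := h
  exact ⟨A, h1, h2, hST.trans h3⟩

theorem small_of_analytic_injOn {f : Z → X} (hf : Continuous f) {A : Set Z}
    (hA : AnalyticSet A) (hinj : InjOn f A) : Small f A := by
  obtain ⟨b, bc, -, hb⟩ := TopologicalSpace.exists_countable_basis Z
  haveI : Countable b := bc.to_subtype
  have hsep : ∀ V : b, MeasurablySeparable (f '' (A ∩ V)) (f '' (A ∩ (V : Set Z)ᶜ)) := by
    intro V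
    have hV : MeasurableSet (V : Set Z) := (hb.isOpen V.2).measurableSet
    have inter : ∀ {S : Set Z}, MeasurableSet S → AnalyticSet (A ∩ S) := by
      intro S hS
      have : A ∩ S = ⋂ i : Bool, (if i then A else S) := by
        ext z; simp [Bool.forall_bool, and_comm]
      rw [this]
      refine AnalyticSet.iInter fun i => ?_
      cases i
      · simpa using hS.analyticSet
      · simpa using hA
    refine AnalyticSet.measurablySeparable ((inter hV).image_of_continuous hf)
      ((inter hV.compl).image_of_continuous hf) ?_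
    rw [Set.disjoint_left]
    rintro x ⟨z, ⟨hzA, hzV⟩, rfl⟩ ⟨z', ⟨hzA', hzV'⟩, h⟩
    have := hinj hzA' hzA h
    subst this
    exact hzV' hzV
  choose C hC1 hC2 hC3 using hsep
  refine ⟨fun _ => {z | ∀ V : b, z ∈ (V : Set Z) ↔ f z ∈ C V}, fun _ => ?_, fun _ => ?_, ?_⟩
  · have : {z | ∀ V : b, z ∈ (V : Set Z) ↔ f z ∈ C V}
        = ⋂ V : b, {z | z ∈ (V : Set Z) ↔ f z ∈ C V} := by
      ext z; simp
    rw [this]
    refine MeasurableSet.iInter fun V => ?_
    have h1 : MeasurableSet {z | z ∈ (V : Set Z)} := (hb.isOpen V.2).measurableSet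
    have h2 : MeasurableSet {z | f z ∈ C V} := hf.measurable (hC3 V)
    exact measurableSet_setOf.2 ((measurableSet_setOf.1 h1).iff (measurableSet_setOf.1 h2))
  · intro z hz z' hz' h
    by_contra hne
    obtain ⟨U, hU, hzU, hz'U⟩ : ∃ U : Set Z, IsOpen U ∧ z ∈ U ∧ z' ∉ U :=
      ⟨{z'}ᶜ, isOpen_compl_singleton, hne, by simp⟩
    obtain ⟨V, hVb, hzV, hVU⟩ := hb.exists_subset_of_mem_open hzU hU
    have h1 := (hz ⟨V, hVb⟩).1 hzV
    rw [h] at h1
    exact hz'U (hVU ((hz' ⟨V, hVb⟩).2 h1))
  · intro z hz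
    refine mem_iUnion.2 ⟨0, fun V => ⟨fun hV => hC1 V ⟨z, ⟨hz, hV⟩, rfl⟩, fun hV => ?_⟩⟩
    by_contra hzV
    exact (Set.disjoint_left.1 (hC2 V)) ⟨z, ⟨hz, hzV⟩, rfl⟩ hV

/-- a family of sets meets one common fibre outside `N` -/
def Alive (f : Z → X) (N : Set Z) {ι : Type} (O : ι → Set Z) : Prop :=
  ∃ x, ∀ i, ∃ z ∈ O i, z ∉ N ∧ f z = x

theorem exists_kernel {f : Z → X} (hf : Continuous f) :
    ∃ N : Set Z, Small f N ∧ ∀ (ι : Type) [Finite ι] (O : ι → Set Z), (∀ i, IsOpen (O i)) →
      Alive f N O → ∀ i₀, ∃ x, (∀ i, ∃ z ∈ O i, z ∉ N ∧ f z = x) ∧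
        ∃ z ∈ O i₀, ∃ z' ∈ O i₀, z ∉ N ∧ z' ∉ N ∧ z ≠ z' ∧ f z = x ∧ f z' = x := by
  classical
  obtain ⟨b, bc, -, hb⟩ := TopologicalSpace.exists_countable_basis Z
  haveI : Countable b := bc.to_subtype
  -- configurations
  let P := {u : Set (Set Z) // u.Finite ∧ u ⊆ b} × b
  haveI : Countable {u : Set (Set Z) // u.Finite ∧ u ⊆ b} :=
    (Set.countable_setOf_finite_subset bc).to_subtype
  haveI : Countable P := inferInstanceAs (Countable (_ × _))
  let T : Set Z → Set (Set Z) → Set X := fun N u => ⋂ V ∈ u, f '' (V \ N)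
  let W : Set Z → P → Set Z := fun N p => ((p.2 : Set Z) \ N) ∩ f ⁻¹' T N p.1.1
  have Wanti : ∀ N N' p, N ⊆ N' → W N' p ⊆ W N p \ N' := by
    intro N N' p h z hz
    refine ⟨⟨⟨hz.1.1, fun h' => hz.1.2 (h h')⟩, ?_⟩, hz.1.2⟩
    have h2 := hz.2
    simp only [T, mem_preimage, mem_iInter] at h2 ⊢
    intro V hV
    exact image_mono (diff_subset_diff_right h) (h2 V hV)
  have hex : ∀ p : P, ∃ M : Set Z, MeasurableSet M ∧ Small f M ∧
      ((∃ M' : Set Z, MeasurableSet M' ∧ Small f M' ∧ W M' p = ∅) → W M p = ∅) := by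
    intro p
    by_cases h : ∃ M' : Set Z, MeasurableSet M' ∧ Small f M' ∧ W M' p = ∅
    · obtain ⟨M', h1, h2, h3⟩ := h
      exact ⟨M', h1, h2, fun _ => h3⟩
    · exact ⟨∅, MeasurableSet.empty, ⟨fun _ => ∅, by simp, by simp, by simp⟩,
        fun h' => absurd h' h⟩
  choose M hMm hMs hMW using hex
  let N : Set Z := ⋃ p, M p
  have hNm : MeasurableSet N := MeasurableSet.iUnion hMm
  have hNs : Small f N := Small.iUnion hMs
  have key : ∀ p : P, Small f (W N p) → W N p = ∅ := by
    intro p hp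
    obtain ⟨A, hA1, hA2, hA3⟩ := hp
    have h1 : W (N ∪ ⋃ n, A n) p = ∅ := by
      apply eq_empty_of_forall_notMem
      intro z hz
      have := Wanti N _ p subset_union_left hz
      exact this.2 (Or.inr (hA3 this.1))
    have h2 : Small f (N ∪ ⋃ n, A n) := by
      have : N ∪ ⋃ n, A n = ⋃ i : Bool, (if i then N else ⋃ n, A n) := by
        ext z; simp [or_comm]
      rw [this]
      refine Small.iUnion fun i => ?_
      cases i
      · simpa using ⟨A, hA1, hA2, Subset.rfl⟩
      · simpa using hNs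
    have h3 := hMW p ⟨_, hNm.union (MeasurableSet.iUnion hA1), h2, h1⟩
    apply eq_empty_of_forall_notMem
    intro z hz
    have := (Wanti (M p) N p (subset_iUnion M p) hz).1
    rw [h3] at this
    exact this
  refine ⟨N, hNs, ?_⟩
  intro ι _ O hO ⟨x, hx⟩ i₀
  choose z hzO hzN hzf using hx
  have : ∀ i, ∃ V ∈ b, z i ∈ V ∧ V ⊆ O i := fun i => hb.exists_subset_of_mem_open (hzO i) (hO i)
  choose V hVb hzV hVO using this
  let p : P := (⟨range V, finite_range V, by rintro _ ⟨i, rfl⟩; exact hVb i⟩, ⟨V i₀, hVb i₀⟩)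
  have hne : W N p ≠ ∅ := by
    apply Set.Nonempty.ne_empty
    refine ⟨z i₀, ⟨hzV i₀, hzN i₀⟩, ?_⟩
    simp only [T, mem_preimage, mem_iInter]
    rintro _ ⟨i, rfl⟩
    exact ⟨z i, ⟨hzV i, hzN i⟩, by rw [hzf, hzf]⟩
  have han : AnalyticSet (W N p) := by
    have h1 : W N p = ⋂ j : Option ι, (match j with
        | none => V i₀ \ N
        | some i => f ⁻¹' (f '' (V i \ N))) := by
      ext w
      simp only [W, T, p, mem_inter_iff, mem_preimage, mem_iInter, Option.forall,
        forall_mem_range]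
    rw [h1]
    refine AnalyticSet.iInter fun j => ?_
    have hm : ∀ i, AnalyticSet (V i \ N) := fun i =>
      (((hb.isOpen (hVb i)).measurableSet).diff hNm).analyticSet
    cases j with
    | none => exact hm i₀
    | some i => exact ((hm i).image_of_continuous hf).preimage hf
  have hninj : ¬ InjOn f (W N p) := fun h => hne (key p (small_of_analytic_injOn hf han h))
  simp only [InjOn, not_forall] at hninj
  obtain ⟨w, hw, w', hw', hff, hne'⟩ := hninj
  refine ⟨f w, fun i => ?_, w, hVO i₀ hw.1.1, w', hVO i₀ hw'.1.1, hw.1.2, hw'.1.2, hne', rfl,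
    hff.symm⟩
  have h2 := hw.2
  simp only [T, mem_preimage, mem_iInter] at h2
  obtain ⟨y, hy, hyf⟩ := h2 (V i) ⟨i, rfl⟩
  exact ⟨y, hVO i hy.1, hy.2, hyf⟩

/-- index sets of the binary scheme -/
def Node : ℕ → Type
  | 0 => Unit
  | n + 1 => Node n × Bool

instance : ∀ n, Finite (Node n)
  | 0 => inferInstanceAs (Finite Unit)
  | n + 1 => by
      haveI : Finite (Node n) := instFiniteNode n
      exact inferInstanceAs (Finite (Node n × Bool))

/-- the node of a branch -/
def node (a : ℕ → Bool) : ∀ n, Node n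
  | 0 => ()
  | n + 1 => (node a n, a n)

omit [CompleteSpace Z] [SecondCountableTopology Z] [MeasurableSpace Z] [BorelSpace Z]
  [TopologicalSpace X] [PolishSpace X] [MeasurableSpace X] [BorelSpace X] in
theorem doubling {f : Z → X} {N : Set Z}
    (hN : ∀ (ι : Type) [Finite ι] (O : ι → Set Z), (∀ i, IsOpen (O i)) →
      Alive f N O → ∀ i₀, ∃ x, (∀ i, ∃ z ∈ O i, z ∉ N ∧ f z = x) ∧
        ∃ z ∈ O i₀, ∃ z' ∈ O i₀, z ∉ N ∧ z' ∉ N ∧ z ≠ z' ∧ f z = x ∧ f z' = x)
    (ι : Type) [Finite ι] (O : ι → Set Z) (hO : ∀ i, IsOpen (O i)) (hA : Alive f N O)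
    {r : ℝ} (hr : 0 < r) :
    ∃ O' : ι × Bool → Set Z, (∀ j, IsOpen (O' j)) ∧ Alive f N O' ∧
      (∀ j, closure (O' j) ⊆ O j.1) ∧ (∀ i, Disjoint (O' (i, false)) (O' (i, true))) ∧
      ∀ j, ∀ z ∈ O' j, ∀ z' ∈ O' j, dist z z' ≤ r := by
  classical
  haveI := Fintype.ofFinite ι
  have step : ∀ S : Finset ι, ∃ O' : ι × Bool → Set Z, (∀ j, IsOpen (O' j)) ∧ Alive f N O' ∧
      (∀ j, O' j ⊆ O j.1) ∧ (∀ i ∈ S, Disjoint (O' (i, false)) (O' (i, true))) := by
    intro S
    induction S using Finset.induction_on with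
    | empty =>
      refine ⟨fun j => O j.1, fun j => hO _, ?_, fun _ => Subset.rfl, by simp⟩
      obtain ⟨x, hx⟩ := hA
      exact ⟨x, fun j => hx j.1⟩
    | insert i₀ S hi ih =>
      obtain ⟨O', h1, h2, h3, h4⟩ := ih
      obtain ⟨x, hx, z, hz, z', hz', hzN, hz'N, hne, hfz, hfz'⟩ := hN _ O' h1 h2 (i₀, false)
      obtain ⟨V, V', hV, hV', hzV, hz'V, hd⟩ := t2_separation hne
      refine ⟨fun j => if j.1 = i₀ then (O' (i₀, false) ∩ (if j.2 then V' else V)) else O' j,
        ?_, ⟨x, ?_⟩, ?_, ?_⟩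
      · intro j
        by_cases h : j.1 = i₀
        · simp only [h, if_true]
          refine (h1 _).inter ?_
          split_ifs <;> assumption
        · simp only [h, if_false]; exact h1 j
      · intro j
        by_cases h : j.1 = i₀
        · simp only [h, if_true]
          cases hj : j.2
          · exact ⟨z, ⟨hz, by simpa using hzV⟩, hzN, hfz⟩
          · exact ⟨z', ⟨hz', by simpa using hz'V⟩, hz'N, hfz'⟩
        · simp only [h, if_false]; exact hx j
      · intro j
        by_cases h : j.1 = i₀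
        · simp only [h, if_true]
          exact inter_subset_left.trans (h3 (i₀, false))
        · simp only [h, if_false]; exact h3 j
      · intro i hi'
        by_cases h : i = i₀
        · simp only [h, if_true]
          exact (hd.mono inter_subset_right inter_subset_right)
        · simp only [h, if_false]
          exact h4 i (by simpa [h] using hi')
  obtain ⟨O', h1, ⟨x, hx⟩, h3, h4⟩ := step Finset.univ
  choose z hzO hzN hzf using hx
  have : ∀ j, ∃ s : ℝ, 0 < s ∧ s ≤ r / 2 ∧ Metric.closedBall (z j) s ⊆ O' j := by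
    intro j
    obtain ⟨s, hs, hsub⟩ := Metric.nhds_basis_closedBall.mem_iff.1 ((h1 j).mem_nhds (hzO j))
    refine ⟨min s (r / 2), lt_min hs (by linarith), min_le_right _ _, ?_⟩
    exact (Metric.closedBall_subset_closedBall (min_le_left _ _)).trans hsub
  choose s hs0 hsr hsub using this
  refine ⟨fun j => Metric.ball (z j) (s j), fun _ => Metric.isOpen_ball,
    ⟨x, fun j => ⟨z j, Metric.mem_ball_self (hs0 j), hzN j, hzf j⟩⟩, fun j => ?_, fun i => ?_,
    fun j w hw w' hw' => ?_⟩
  · exact (Metric.closure_ball_subset_closedBall.trans (hsub j)).trans (h3 j)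
  · exact (h4 i (Finset.mem_univ i)).mono (Metric.ball_subset_closedBall.trans (hsub _))
      (Metric.ball_subset_closedBall.trans (hsub _))
  · have a1 := Metric.mem_ball.1 hw
    have a2 := Metric.mem_ball.1 hw'
    have := dist_triangle_right w w' (z j)
    have := hsr j
    linarith

theorem small_univ {f : Z → X} (hf : Continuous f) (hc : ∀ x, (f ⁻¹' {x}).Countable) :
    Small f univ := by
  obtain ⟨N, hNs, hN⟩ := exists_kernel hf
  by_cases hall : ∀ z, z ∈ N
  · exact hNs.mono fun z _ => hall z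
  exfalso
  push_neg at hall
  obtain ⟨z₀, hz₀⟩ := hall
  let St : ℕ → Type _ := fun n =>
    {O : Node n → Set Z // (∀ i, IsOpen (O i)) ∧ Alive f N O}
  have hstep : ∀ n (O : St n), ∃ O' : St (n + 1),
      (∀ j : Node n × Bool, closure (O'.1 j) ⊆ O.1 j.1) ∧
      (∀ i : Node n, Disjoint (O'.1 (i, false)) (O'.1 (i, true))) ∧
      ∀ j, ∀ z ∈ O'.1 j, ∀ z' ∈ O'.1 j, dist z z' ≤ (1 / 2 : ℝ) ^ n := by
    intro n O
    obtain ⟨O', h1, h2, h3, h4, h5⟩ := doubling hN (Node n) O.1 O.2.1 O.2.2
      (r := (1 / 2 : ℝ) ^ n) (by positivity)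
    exact ⟨⟨O', h1, h2⟩, h3, h4, h5⟩
  choose nxt hn1 hn2 hn3 using hstep
  let O : ∀ n, St n := fun n => Nat.rec (motive := St)
    ⟨fun _ => univ, fun _ => isOpen_univ, f z₀, fun _ => ⟨z₀, mem_univ _, hz₀, rfl⟩⟩ nxt n
  have hO : ∀ n, O (n + 1) = nxt n (O n) := fun _ => rfl
  have hal : ∀ n, ∃ x, ∀ i, ∃ z ∈ (O n).1 i, z ∉ N ∧ f z = x := fun n => (O n).2.2
  choose x z hz hzN hzf using hal
  let B : (ℕ → Bool) → ℕ → Set Z := fun a n => (O n).1 (node a n)
  have hcl : ∀ a n, closure (B a (n + 1)) ⊆ B a n := fun a n => hn1 n (O n) (node a n, a n)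
  have hanti : ∀ a, Antitone (B a) := fun a =>
    antitone_nat_of_succ_le fun n => subset_closure.trans (hcl a n)
  have hcauchy : ∀ a, CauchySeq fun n => z n (node a n) := by
    intro a
    rw [← cauchySeq_shift 1]
    refine cauchySeq_of_le_geometric (1 / 2) 1 (by norm_num) fun n => ?_
    rw [one_mul]
    exact hn3 n (O n) (node a (n + 1)) _ (hz (n + 1) _) _
      (hanti a (Nat.le_succ (n + 1)) (hz (n + 2) _))
  have hlim : ∀ a, ∃ w, Tendsto (fun n => z n (node a n)) atTop (𝓝 w) := fun a =>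
    cauchySeq_tendsto_of_complete (hcauchy a)
  choose w hw using hlim
  have hwB : ∀ a n, w a ∈ B a n := by
    intro a n
    apply hcl a n
    refine mem_closure_of_tendsto (hw a) ?_
    filter_upwards [eventually_ge_atTop (n + 1)] with m hm
    exact hanti a hm (hz m _)
  have hfx : ∀ a, Tendsto x atTop (𝓝 (f (w a))) := by
    intro a
    have := (hf.tendsto _).comp (hw a)
    refine this.congr fun n => ?_
    simp [hzf]
  have hinj : Function.Injective w := by
    intro a a' h
    have hnode : ∀ n, node a n = node a' n := by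
      intro n
      induction n with
      | zero => rfl
      | succ n ih =>
        have h1 := hwB a (n + 1)
        have h2 := hwB a' (n + 1)
        rw [← h] at h2
        have hd := hn2 n (O n) (node a n)
        have e : a n = a' n := by
          by_contra hne
          simp only [B, node, hO, ← ih] at h1 h2
          cases ha : a n <;> cases ha' : a' n <;> simp only [ha, ha'] at h1 h2 hne
          · exact hne trivial
          · exact Set.disjoint_left.1 hd h1 h2
          · exact Set.disjoint_left.1 hd h2 h1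
          · exact hne trivial
        show (node a n, a n) = (node a' n, a' n)
        rw [ih, e]
    funext n
    have := hnode (n + 1)
    simp only [node] at this
    exact congrArg Prod.snd this
  have hcount : (univ : Set (ℕ → Bool)).Countable := by
    refine (hc (f (w fun _ => false))).preimage_of_injOn hinj.injOn |>.mono ?_
    intro a _
    exact tendsto_nhds_unique (hfx a) (hfx _)
  have hc' : Countable (ℕ → Bool) := countable_univ_iff.1 hcount
  obtain ⟨e, he⟩ := exists_surjective_nat (ℕ → Bool)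
  obtain ⟨k, hk⟩ := he fun n => !(e n n)
  have := congrFun hk k
  simp at this

end polish

theorem lusin_novikov {Z X : Type*} [MeasurableSpace Z] [StandardBorelSpace Z]
    [MeasurableSpace X] [StandardBorelSpace X] {f : Z → X} (hf : Measurable f)
    (hc : ∀ x, (f ⁻¹' {x}).Countable) :
    ∃ A : ℕ → Set Z, (∀ n, MeasurableSet (A n)) ∧ (∀ n, InjOn f (A n)) ∧ ∀ z, ∃ n, z ∈ A n := by
  letI := upgradeStandardBorel X
  letI := upgradeStandardBorel Z
  let t : TopologicalSpace Z := inferInstance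
  have tp : PolishSpace Z := inferInstance
  obtain ⟨t', hle, hcont, hpol⟩ := hf.exists_continuous
  have hb : (inferInstance : MeasurableSpace Z) = @borel Z t' := by
    rw [borel_eq_borel_of_le hpol tp hle]
    exact eq_borel_upgradeStandardBorel Z
  have : Small f univ := by
    letI : TopologicalSpace Z := t'
    haveI : BorelSpace Z := ⟨hb⟩
    letI := TopologicalSpace.upgradeIsCompletelyMetrizable Z
    exact small_univ hcont hc
  obtain ⟨A, h1, h2, h3⟩ := this
  exact ⟨A, h1, h2, fun z => mem_iUnion.1 (h3 (mem_univ z))⟩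

end Pool.Agent.Lib.MP_10b896_lc
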