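import Pool.Agent.Lib.MP_10b896_lc.Defs
import Pool.Agent.Lib.MP_10b896_lc.Core
import Pool.Agent.Lib.MP_10b896_lc.LusinNovikov

/-! The example: continuum many copies of a free profinite action of `SL(2, ℤ)`. -/

open Set MeasureTheory Topology Filter Matrix
open scoped ENNReal MatrixGroups

namespace Pool.Agent.Lib.MP_10b896_lc

noncomputable section

theorem Fml.sat_equiv {L : RelLang} {M M' : Type} (e : M ≃ M')
    {I : ∀ R : L.Sym, (Fin (L.arity R) → M) → Prop}
    {I' : ∀ R : L.Sym, (Fin (L.arity R) → M') → Prop}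
    (h : ∀ R t, I R t ↔ I' R fun i => e (t i)) {n : ℕ} (φ : Fml L n) (v : Fin n → M) :
    φ.Sat I v ↔ φ.Sat I' fun i => e (v i) := by
  have hs : ∀ {n : ℕ} (v : Fin n → M) (m : M),
      (fun i => e ((Fin.snoc v m : Fin (n + 1) → M) i))
        = (Fin.snoc (fun i => e (v i)) (e m) : Fin (n + 1) → M') := by
    intro n v m
    exact Fin.comp_snoc e v m
  induction φ with
  | eq i j => exact e.injective.eq_iff.symm
  | rel R a => exact h _ _
  | not φ ih => exact not_congr (ih v)
  | iAnd φ ih => exact forall_congr' fun k => ih k v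
  | iOr φ ih => exact exists_congr fun k => ih k v
  | ex φ ih =>
    change (∃ m, φ.Sat I (Fin.snoc v m)) ↔ ∃ m, φ.Sat I' (Fin.snoc (fun i => e (v i)) m)
    simp only [ih, hs]
    exact e.exists_congr_left.trans (by simp)
  | all φ ih =>
    change (∀ m, φ.Sat I (Fin.snoc v m)) ↔ ∀ m, φ.Sat I' (Fin.snoc (fun i => e (v i)) m)
    simp only [ih, hs]
    exact e.forall_congr_left.trans (by simp)

theorem Structurable.pullback {L : RelLang} {σ : Fml L 0} {F U : CBER} (hU : Structurable σ U)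
    (h : F.X → U.X) (hm : Measurable h) (hom : ∀ y y', F.r y y' → U.r (h y) (h y'))
    (inj : ∀ y y', F.r y y' → h y = h y' → y = y')
    (surj : ∀ y u, U.r (h y) u → ∃ y', F.r y y' ∧ h y' = u) : Structurable σ F := by
  obtain ⟨I, h1, -, h3⟩ := hU
  refine ⟨fun R t => (∀ i j, F.r (t i) (t j)) ∧ I R fun i => h (t i), fun R => ?_,
    fun R t ht => ht.1, fun x => ?_⟩
  · have : {t : Fin (L.arity R) → F.X | (∀ i j, F.r (t i) (t j)) ∧ I R fun i => h (t i)}
        = (⋂ i, ⋂ j, (fun t : Fin (L.arity R) → F.X => (t i, t j)) ⁻¹' {p | F.r p.1 p.2})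
          ∩ (fun (t : Fin (L.arity R) → F.X) i => h (t i)) ⁻¹' {t | I R t} := by
      ext t; simp
    rw [this]
    refine (MeasurableSet.iInter fun i => MeasurableSet.iInter fun j =>
      ((measurable_pi_apply i).prodMk (measurable_pi_apply j)) F.borel).inter ?_
    exact (measurable_pi_lambda _ fun i => hm.comp (measurable_pi_apply i)) (h1 R)
  · let e0 : {y // F.r x y} → {u // U.r (h x) u} := fun y => ⟨h y.1, hom _ _ y.2⟩
    have he : Function.Bijective e0 := by
      refine ⟨fun y y' hy => Subtype.ext (inj _ _ (F.equiv.trans (F.equiv.symm y.2) y'.2)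
        (congrArg Subtype.val hy)), fun u => ?_⟩
      obtain ⟨y', a, b⟩ := surj x u.1 u.2
      exact ⟨⟨y', a⟩, Subtype.ext b⟩
    refine (Fml.sat_equiv (Equiv.ofBijective e0 he)
      (I' := fun R t => I R fun i => (t i).1) (fun R t => ?_) σ Fin.elim0).2 ?_
    · exact ⟨fun a => a.2, fun a => ⟨fun i j =>
        F.equiv.trans (F.equiv.symm (t i).2) (t j).2, a⟩⟩
    · have e1 : (fun i => Equiv.ofBijective e0 he (Fin.elim0 i)) = Fin.elim0 :=
        funext fun i => i.elim0
      rw [e1]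
      exact h3 (h x)

theorem exists_transversal {Z X : Type*} [MeasurableSpace Z] [StandardBorelSpace Z]
    [MeasurableSpace X] [StandardBorelSpace X] {f : Z → X} (hf : Measurable f)
    (hc : ∀ x, (f ⁻¹' {x}).Countable) :
    ∃ T : Set Z, MeasurableSet T ∧ InjOn f T ∧ ∀ z, ∃ z' ∈ T, f z' = f z := by
  classical
  obtain ⟨A, h1, h2, h3⟩ := lusin_novikov hf hc
  have him : ∀ n, MeasurableSet (f '' A n) := fun n =>
    (h1 n).image_of_measurable_injOn hf (h2 n)
  refine ⟨⋃ n, A n \ ⋃ m < n, f ⁻¹' (f '' A m), MeasurableSet.iUnion fun n => (h1 n).diff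
    (MeasurableSet.biUnion (to_countable _) fun m _ => hf (him m)), ?_, fun z => ?_⟩
  · intro z hz z' hz' hzz
    obtain ⟨n, hn, hn'⟩ := mem_iUnion.1 hz
    obtain ⟨m, hm, hm'⟩ := mem_iUnion.1 hz'
    simp only [mem_iUnion, mem_preimage, not_exists] at hn' hm'
    rcases lt_trichotomy n m with h | h | h
    · exact absurd ⟨z, hn, hzz⟩ (hm' n h)
    · subst h; exact h2 n hn hm hzz
    · exact absurd ⟨z', hm, hzz.symm⟩ (hn' m h)
  · have hex : ∃ n, f z ∈ f '' A n := by
      obtain ⟨n, hn⟩ := h3 z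
      exact ⟨n, z, hn, rfl⟩
    obtain ⟨z', hz', hff⟩ := Nat.find_spec hex
    refine ⟨z', mem_iUnion.2 ⟨Nat.find hex, hz', ?_⟩, hff⟩
    simp only [mem_iUnion, mem_preimage, not_exists]
    intro m hm
    rw [hff]
    exact Nat.find_min hex hm

/-- the finite quotients -/
def Q (n : ℕ) : Type := SL(2, ZMod (n + 1))

instance (n : ℕ) : Group (Q n) := inferInstanceAs (Group SL(2, ZMod (n + 1)))
instance (n : ℕ) : Finite (Q n) := inferInstanceAs (Finite SL(2, ZMod (n + 1)))
instance (n : ℕ) : TopologicalSpace (Q n) := ⊥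
instance (n : ℕ) : DiscreteTopology (Q n) := ⟨rfl⟩
instance (n : ℕ) : MeasurableSpace (Q n) := ⊤
instance (n : ℕ) : DiscreteMeasurableSpace (Q n) := ⟨fun _ => trivial⟩
instance (n : ℕ) : BorelSpace (Q n) := ⟨borel_eq_top_of_discrete.symm⟩
instance (n : ℕ) : IsTopologicalGroup (Q n) := inferInstance

/-- the profinite group -/
abbrev K : Type := ∀ n, Q n

instance : Countable SL(2, ℤ) := by
  have : Countable (Matrix (Fin 2) (Fin 2) ℤ) := inferInstanceAs (Countable (Fin 2 → Fin 2 → ℤ))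
  exact Subtype.countable

/-- the diagonal embedding -/
def rho : SL(2, ℤ) →* K where
  toFun g n := SpecialLinearGroup.map (Int.castRingHom (ZMod (n + 1))) g
  map_one' := funext fun n => (SpecialLinearGroup.map (Int.castRingHom (ZMod (n + 1)))).map_one
  map_mul' g h :=
    funext fun n => (SpecialLinearGroup.map (Int.castRingHom (ZMod (n + 1)))).map_mul g h

theorem rho_injective : Function.Injective rho := by
  intro g h hgh
  ext i j
  have key : ∀ n : ℕ, ((g i j : ℤ) : ZMod (n + 1)) = ((h i j : ℤ) : ZMod (n + 1)) := fun n =>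
    congrArg (fun A : SL(2, ZMod (n + 1)) => A i j) (congrFun hgh n)
  have := (ZMod.intCast_eq_intCast_iff_dvd_sub _ _ _).1 (key (h i j - g i j).natAbs)
  have h0 := Int.eq_zero_of_dvd_of_natAbs_lt_natAbs this (by omega)
  omega

/-- Haar probability measure -/
def muK : Measure K := Measure.haarMeasure ⊤

instance : muK.IsHaarMeasure := inferInstanceAs (Measure.haarMeasure ⊤).IsHaarMeasure

instance : IsProbabilityMeasure muK :=
  ⟨by simpa [muK] using Measure.haarMeasure_self (G := K) (K₀ := ⊤)⟩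

/-- the orbit relation of the profinite action -/
def E0 : CBER where
  X := K
  r x y := ∃ g, rho g * x = y
  equiv := ⟨fun x => ⟨1, by simp⟩, by
    rintro x _ ⟨g, rfl⟩
    exact ⟨g⁻¹, by simp⟩, by
    rintro x _ _ ⟨g, rfl⟩ ⟨h, rfl⟩
    exact ⟨h * g, by simp [mul_assoc]⟩⟩
  borel := by
    rw [setOf_exists]
    exact MeasurableSet.iUnion fun g =>
      measurableSet_eq_fun (measurable_fst.const_mul _) measurable_snd
  countable x := countable_range fun g => rho g * x

/-- the diagonal action -/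
def Phi (g : SL(2, ℤ)) : T2 × K → T2 × K := Prod.map (act g) fun x => rho g * x

theorem measurable_Phi (g : SL(2, ℤ)) : Measurable (Phi g) :=
  (continuous_act g).measurable.prodMap (measurable_const_mul _)

theorem Phi_one (y : T2 × K) : Phi 1 y = y := by
  simp [Phi, Prod.map, act_one]

theorem Phi_mul (g h : SL(2, ℤ)) (y : T2 × K) : Phi (g * h) y = Phi g (Phi h y) := by
  simp [Phi, Prod.map, act_mul, mul_assoc]

/-- the orbit relation of the diagonal action -/
def F0 : CBER where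
  X := T2 × K
  r x y := ∃ g, Phi g x = y
  equiv := ⟨fun x => ⟨1, Phi_one x⟩, by
    rintro x _ ⟨g, rfl⟩
    exact ⟨g⁻¹, by rw [← Phi_mul, inv_mul_cancel, Phi_one]⟩, by
    rintro x _ _ ⟨g, rfl⟩ ⟨h, rfl⟩
    exact ⟨h * g, Phi_mul _ _ _⟩⟩
  borel := by
    rw [setOf_exists]
    exact MeasurableSet.iUnion fun g =>
      measurableSet_eq_fun ((measurable_Phi g).comp measurable_fst) measurable_snd
  countable x := countable_range fun g => Phi g x

theorem not_reduces : ¬ Reduces F0 (timesR E0) := by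
  classical
  rintro ⟨φ, hφ, hred⟩
  change T2 × K → K × ℝ at φ
  have hφ' : Measurable φ := hφ
  have hred' : ∀ y y', (∃ g, Phi g y = y') ↔ (∃ g, rho g * (φ y).1 = (φ y').1)
      ∧ (φ y).2 = (φ y').2 := hred
  have hc : ∀ x, (φ ⁻¹' {x}).Countable := by
    intro x
    rcases (φ ⁻¹' {x}).eq_empty_or_nonempty with h | ⟨y, hy⟩
    · rw [h]; exact countable_empty
    · refine (countable_range fun g => Phi g y).mono fun y' hy' => ?_
      have : φ y = φ y' := (hy : φ y = x).trans (hy' : φ y' = x).symm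
      exact (hred' y y').2 ⟨⟨1, by simp [this]⟩, by rw [this]⟩
  obtain ⟨A, hA1, hA2, hA3⟩ := lusin_novikov hφ' hc
  let κ : T2 × K → ℕ := fun y => Nat.find (hA3 y)
  have hκ : Measurable κ := measurable_find hA3 hA1
  obtain ⟨en, hen⟩ := exists_surjective_nat SL(2, ℤ)
  obtain ⟨rq, hrq⟩ := exists_surjective_nat ℚ
  have hcode : ∀ j, ∃ c : Q j → ℕ, Function.Injective c := fun j => exists_injective_nat _
  choose code hcode using hcode
  have hex : ∀ g y, ∃ n, rho (en n) * (φ y).1 = (φ (Phi g y)).1 := by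
    intro g y
    obtain ⟨⟨d, hd⟩, -⟩ := (hred' y (Phi g y)).1 ⟨g, rfl⟩
    obtain ⟨n, rfl⟩ := hen d
    exact ⟨n, hd⟩
  let a : SL(2, ℤ) → T2 × K → ℕ := fun g y => Nat.find (hex g y)
  have ha : ∀ g, Measurable (a g) := fun g => measurable_find (hex g) fun n =>
    measurableSet_eq_fun (hφ'.fst.const_mul _) (hφ'.comp (measurable_Phi g)).fst
  let q : ℕ → T2 × K → ℕ × Prop × ℕ := fun j y =>
    (code j ((φ y).1 j), (φ y).2 < (rq j : ℝ), κ y)
  have hq : ∀ j, Measurable (q j) := fun j =>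
    (measurable_from_top.comp ((measurable_pi_apply j).comp hφ'.fst)).prodMk
      ((measurableSet_setOfPred.1 (measurableSet_lt hφ'.snd measurable_const)).prodMk hκ)
  refine core muK (fun g x => rho g * x) (fun g => measurePreserving_mul_left _ _)
    (fun g x => by simp) q (fun j c => hq j (measurableSet_singleton c)) ?_
    (fun g y => (a g y, κ (Phi g y)))
    (fun g d => ((ha g).prodMk (hκ.comp (measurable_Phi g))) (measurableSet_singleton d)) ?_
  · intro y y' h
    simp only [q, Prod.mk.injEq] at h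
    have h1 : (φ y).1 = (φ y').1 := funext fun j => hcode j (h j).1
    have h2 : (φ y).2 = (φ y').2 := by
      by_contra hne
      rcases lt_or_gt_of_ne hne with hlt | hlt
      · obtain ⟨r, hr1, hr2⟩ := exists_rat_btwn hlt
        obtain ⟨j, rfl⟩ := hrq r
        exact lt_asymm hr2 ((h j).2.1 ▸ hr1)
      · obtain ⟨r, hr1, hr2⟩ := exists_rat_btwn hlt
        obtain ⟨j, rfl⟩ := hrq r
        exact lt_asymm hr2 ((h j).2.1.symm ▸ hr1)
    have h3 : κ y = κ y' := (h 0).2.2
    have m1 : y ∈ A (κ y) := Nat.find_spec (hA3 y)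
    have m2 : y' ∈ A (κ y') := Nat.find_spec (hA3 y')
    rw [← h3] at m2
    exact hA2 _ m1 m2 (Prod.ext h1 h2)
  · intro g j y y' h h'
    change q j (Phi g y) = q j (Phi g y')
    simp only [q, Prod.mk.injEq] at h h' ⊢
    have e1 : rho (en (a g y)) * (φ y).1 = (φ (Phi g y)).1 := Nat.find_spec (hex g y)
    have e2 : rho (en (a g y')) * (φ y').1 = (φ (Phi g y')).1 := Nat.find_spec (hex g y')
    refine ⟨?_, ?_, h'.2⟩
    · rw [← e1, ← e2, h'.1, Pi.mul_apply, Pi.mul_apply, hcode j h.1]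
    · rw [← ((hred' y (Phi g y)).1 ⟨g, rfl⟩).2, ← ((hred' y' (Phi g y')).1 ⟨g, rfl⟩).2]
      exact h.2.1

theorem timesR_iso (E : CBER) : BorelIso (timesR (timesR E)) (timesR E) := by
  have h1 : ¬ Countable (ℝ × ℝ) := fun _ =>
    not_countable (Function.Injective.countable (f := fun x : ℝ => (x, (0 : ℝ)))
      fun _ _ h => congrArg Prod.fst h)
  let e : ℝ × ℝ ≃ᵐ ℝ := PolishSpace.measurableEquivOfNotCountable h1 not_countable
  refine ⟨fun p : (E.X × ℝ) × ℝ => ((p.1.1, e (p.1.2, p.2)) : E.X × ℝ),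
    measurable_fst.fst.prodMk (e.measurable.comp (measurable_fst.snd.prodMk measurable_snd)),
    ⟨?_, ?_⟩, ?_⟩
  · rintro ⟨⟨x, r⟩, s⟩ ⟨⟨x', r'⟩, s'⟩ h
    have h1 : x = x' := congrArg Prod.fst h
    have h2 : (r, s) = (r', s') := e.injective (congrArg Prod.snd h)
    rw [h1, (Prod.mk.inj h2).1, (Prod.mk.inj h2).2]
  · rintro ⟨x, r⟩
    exact ⟨((x, (e.symm r).1), (e.symm r).2), Prod.ext rfl (e.apply_symm_apply r)⟩
  · rintro ⟨⟨x, r⟩, s⟩ ⟨⟨x', r'⟩, s'⟩
    change (E.r x x' ∧ r = r') ∧ s = s' ↔ E.r x x' ∧ e (r, s) = e (r', s')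
    rw [e.injective.eq_iff, Prod.mk.injEq, and_assoc]

theorem reduces_of_classBij {L : RelLang} {σ : Fml L 0} {U : CBER} (hU : InvUniversal σ U)
    {E : CBER} (h1 : Reduces E U) (h : F0.X → E.X) (hm : Measurable h)
    (hom : ∀ y y', F0.r y y' → E.r (h y) (h y'))
    (inj : ∀ y y', F0.r y y' → h y = h y' → y = y')
    (surj : ∀ y x, E.r (h y) x → ∃ y', F0.r y y' ∧ h y' = x) : Reduces F0 U := by
  classical
  obtain ⟨g, hg, hgr⟩ := h1
  -- a Borel selector for the saturation of the image of `g`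
  let P : Set (U.X × E.X) := {p | U.r p.1 (g p.2)}
  have hP : MeasurableSet P := (measurable_fst.prodMk (hg.comp measurable_snd)) U.borel
  have : StandardBorelSpace P := hP.standardBorel
  have hcP : ∀ u, ((fun p : P => p.1.1) ⁻¹' {u}).Countable := by
    intro u
    rcases ((fun p : P => p.1.1) ⁻¹' {u}).eq_empty_or_nonempty with h0 | ⟨p, hp⟩
    · rw [h0]; exact countable_empty
    · refine MapsTo.countable_of_injOn (f := fun p : P => p.1.2) (t := {y | E.r p.1.2 y})
        ?_ ?_ (E.countable p.1.2)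
      · intro a ha
        have e : p.1.1 = a.1.1 := (hp : p.1.1 = u).trans (ha : a.1.1 = u).symm
        have a2 : U.r a.1.1 (g a.1.2) := a.2
        rw [← e] at a2
        exact (hgr _ _).2 (U.equiv.trans (U.equiv.symm p.2) a2)
      · intro a ha b hb hab
        exact Subtype.ext (Prod.ext ((ha : a.1.1 = u).trans (hb : b.1.1 = u).symm) hab)
  obtain ⟨T, hT1, hT2, hT3⟩ := exists_transversal (f := fun p : P => p.1.1)
    (measurable_fst.comp measurable_subtype_coe) hcP
  let S : Set (U.X × E.X) := Subtype.val '' T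
  have hS : MeasurableSet S := hP.subtype_image hT1
  have S1 : ∀ u x, (u, x) ∈ S → U.r u (g x) := by
    rintro u x ⟨p, -, hp⟩
    have := p.2
    rwa [hp] at this
  have S2 : ∀ u x x', (u, x) ∈ S → (u, x') ∈ S → x = x' := by
    rintro u x x' ⟨p, hpT, hp⟩ ⟨p', hpT', hp'⟩
    have := hT2 hpT hpT' (by simp only [hp, hp'])
    rw [this, hp'] at hp
    exact (congrArg Prod.snd hp).symm
  have S3 : ∀ u x, U.r u (g x) → ∃ x', (u, x') ∈ S := by
    intro u x hux
    obtain ⟨p, hpT, hp⟩ := hT3 ⟨(u, x), hux⟩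
    exact ⟨p.1.2, p, hpT, Prod.ext hp rfl⟩
  let Y : Set (F0.X × U.X) := {w | (w.2, h w.1) ∈ S}
  have hY : MeasurableSet Y := (measurable_snd.prodMk (hm.comp measurable_fst)) hS
  have : StandardBorelSpace Y := hY.standardBorel
  have homU : ∀ w w' : Y, F0.r w.1.1 w'.1.1 → U.r w.1.2 w'.1.2 := fun w w' hw =>
    U.equiv.trans (S1 _ _ w.2) (U.equiv.trans ((hgr _ _).1 (hom _ _ hw))
      (U.equiv.symm (S1 _ _ w'.2)))
  let Fs : CBER :=
    { X := Y
      r := fun w w' => F0.r w.1.1 w'.1.1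
      equiv := ⟨fun w => F0.equiv.refl _, fun a => F0.equiv.symm a,
        fun a b => F0.equiv.trans a b⟩
      borel := ((measurable_subtype_coe.comp measurable_fst).fst.prodMk
        (measurable_subtype_coe.comp measurable_snd).fst) F0.borel
      countable := fun w => MapsTo.countable_of_injOn (f := fun w : Y => w.1)
        (t := {y | F0.r w.1.1 y} ×ˢ {u | U.r w.1.2 u})
        (fun w' hw' => mem_prod.2 ⟨hw', homU _ _ hw'⟩) Subtype.val_injective.injOn
        ((F0.countable _).prod (U.countable _)) }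
  have lift : ∀ y u, U.r u (g (h y)) → ∃ y', F0.r y y' ∧ (u, h y') ∈ S := by
    intro y u hu
    obtain ⟨x', hx'⟩ := S3 u _ hu
    obtain ⟨y', a, b⟩ := surj y x' ((hgr _ _).2 (U.equiv.trans (U.equiv.symm hu) (S1 _ _ hx')))
    exact ⟨y', a, by rwa [b]⟩
  have hFs : Structurable σ Fs := by
    refine hU.1.pullback (fun w : Y => w.1.2) (measurable_subtype_coe.snd) homU ?_ ?_
    · intro w w' hw e
      have e' : w.1.2 = w'.1.2 := e
      have m2 : (w.1.2, h w'.1.1) ∈ S := by rw [e']; exact w'.2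
      exact Subtype.ext (Prod.ext (inj _ _ hw (S2 _ _ _ w.2 m2)) e')
    · intro w u hu
      obtain ⟨y', a, b⟩ := lift w.1.1 u (U.equiv.trans (U.equiv.symm hu) (S1 _ _ w.2))
      exact ⟨⟨(y', u), b⟩, a, rfl⟩
  obtain ⟨e, he, -, her, -⟩ := hU.2 Fs hFs
  obtain ⟨en, hen⟩ := exists_surjective_nat SL(2, ℤ)
  have hex : ∀ y : F0.X, ∃ n, (g (h y), h (Phi (en n) y)) ∈ S := by
    intro y
    obtain ⟨_, ⟨d, rfl⟩, b⟩ := lift y (g (h y)) (U.equiv.refl _)
    obtain ⟨n, rfl⟩ := hen d
    exact ⟨n, b⟩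
  let t : F0.X → Y := fun y => ⟨(Phi (en (Nat.find (hex y))) y, g (h y)), Nat.find_spec (hex y)⟩
  have ht : Measurable t := by
    refine Measurable.subtype_mk (Measurable.prodMk ?_ (hg.comp hm))
    exact Measurable.find (f := fun n y => Phi (en n) y) (fun n => measurable_Phi _)
      (fun n => ((hg.comp hm).prodMk (hm.comp (measurable_Phi (en n)))) hS) hex
  refine ⟨fun y => e (t y), he.comp ht, fun y y' => ?_⟩
  rw [← her]
  have a : ∀ y, F0.r y (t y).1.1 := fun y => ⟨_, rfl⟩
  exact ⟨fun b => F0.equiv.trans (F0.equiv.symm (a y)) (F0.equiv.trans b (a y')),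
    fun b => F0.equiv.trans (a y) (F0.equiv.trans b (F0.equiv.symm (a y')))⟩

theorem Reduces.trans {E F G : CBER} (h1 : Reduces E F) (h2 : Reduces F G) : Reduces E G := by
  obtain ⟨f, hf, a⟩ := h1
  obtain ⟨g, hg, b⟩ := h2
  exact ⟨fun x => g (f x), hg.comp hf, fun x x' => (a x x').trans (b _ _)⟩

theorem Reduces.refl (E : CBER) : Reduces E E := ⟨id, measurable_id, fun _ _ => Iff.rfl⟩

theorem BorelIso.reduces {E F : CBER} (h : BorelIso E F) : Reduces E F := by
  obtain ⟨f, hf, -, a⟩ := h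
  exact ⟨f, hf, a⟩

theorem BorelIso.reduces_symm {E F : CBER} (h : BorelIso E F) : Reduces F E := by
  obtain ⟨f, hf, hb, a⟩ := h
  have hemb := hf.measurableEmbedding hb.1
  let e := Equiv.ofBijective f hb
  refine ⟨e.symm, fun s hs => ?_, fun y y' => ?_⟩
  · have : e.symm ⁻¹' s = f '' s := (e.image_eq_preimage_symm s).symm
    rw [this]
    exact hemb.measurableSet_image.2 hs
  · rw [a]
    have : ∀ y, f (e.symm y) = y := e.apply_symm_apply
    rw [this, this]

theorem not_bireducible {L : RelLang} {σ : Fml L 0} {U : CBER} (hU : InvUniversal σ U)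
    (h1 : Reduces (timesR E0) U) (h2 : Reduces U (timesR E0)) : False := by
  refine not_reduces (Reduces.trans (reduces_of_classBij hU h1
    (fun y : T2 × K => ((y.2, 0) : K × ℝ)) (measurable_snd.prodMk measurable_const)
    ?_ ?_ ?_) h2)
  · rintro y _ ⟨d, rfl⟩
    exact ⟨⟨d, rfl⟩, rfl⟩
  · rintro y _ ⟨d, rfl⟩ hh
    have : y.2 = rho d * y.2 := congrArg Prod.fst hh
    have hd : d = 1 := rho_injective (by simpa using this)
    rw [hd, Phi_one]
  · rintro y x ⟨⟨d, hd⟩, hx⟩
    exact ⟨Phi d y, ⟨d, rfl⟩, Prod.ext hd hx⟩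

theorem main : ∃ E : CBER, BorelIso (timesR E) E ∧
    ∀ E' : CBER, Reduces E E' → Reduces E' E → ¬ UnivStructurable E' := by
  refine ⟨timesR E0, timesR_iso E0, ?_⟩
  rintro E' h1 h2 ⟨L, σ, U, hU, hiso⟩
  exact not_bireducible hU (h1.trans hiso.reduces) (hiso.reduces_symm.trans h2)

/-- Sanity check of the definitions: equality on the reals is universally structurable. -/
theorem sanity : ∃ E : CBER, Nonempty E.X ∧ UnivStructurable E := by
  let E : CBER :=
    { X := ℝ
      r := fun x y => x = y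
      equiv := eq_equivalence
      borel := measurableSet_eq_fun measurable_fst measurable_snd
      countable := fun x => (countable_singleton x).mono fun y h => h.symm }
  let L : RelLang := ⟨Empty, inferInstance, fun x => x.elim⟩
  let σ : Fml L 0 := .all (.all (.eq 0 1))
  refine ⟨E, ⟨(0 : ℝ)⟩, L, σ, E, ⟨⟨fun R => R.elim, fun R => R.elim, fun R => R.elim,
    fun x => ?_⟩, ?_⟩, id, measurable_id, Function.bijective_id, fun _ _ => Iff.rfl⟩
  · intro a b
    exact Subtype.ext (a.2.symm.trans b.2)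
  · rintro F ⟨I, -, -, h⟩
    obtain ⟨f, hf⟩ := exists_measurableEmbedding_real F.X
    refine ⟨f, hf.measurable, hf.injective, fun x x' => ⟨fun hx => ?_, fun hx => ?_⟩,
      fun x y hxy => ⟨x, hxy⟩⟩
    · have : (⟨x, F.equiv.refl x⟩ : {y // F.r x y}) = ⟨x', hx⟩ := h x _ _
      exact congrArg f (congrArg Subtype.val this)
    · rw [hf.injective hx]
      exact F.equiv.refl _

end

end Pool.Agent.Lib.MP_10b896_lc
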